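import Pool.Agent.Lib_MP_83d99e_an.Defs

set_option autoImplicit false

open MeasureTheory Filter Topology
open scoped ContDiff ENNReal Gradient

namespace Pool.Agent.Lib_MP_83d99e_an

variable {N : ℕ} {Ω : Set (Rn N)}

theorem IsTest.differentiable {φ : Rn N → ℝ} (h : IsTest Ω φ) : Differentiable ℝ φ :=
  h.1.differentiable (by simp)

theorem IsTest.hasGradientAt {φ : Rn N → ℝ} (h : IsTest Ω φ) (x : Rn N) :
    HasGradientAt φ (∇ φ x) x := (h.differentiable x).hasGradientAt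

theorem IsTest.continuous {φ : Rn N → ℝ} (h : IsTest Ω φ) : Continuous φ := h.1.continuous

theorem IsTest.continuous_gradient {φ : Rn N → ℝ} (h : IsTest Ω φ) : Continuous (∇ φ) := by
  have h1 : Continuous (fderiv ℝ φ) := h.1.continuous_fderiv (by simp)
  exact (InnerProductSpace.toDual ℝ (Rn N)).symm.continuous.comp h1

theorem IsTest.hasCompactSupport_gradient {φ : Rn N → ℝ} (h : IsTest Ω φ) :
    HasCompactSupport (∇ φ) := by
  have h1 : HasCompactSupport (fderiv ℝ φ) := h.2.1.fderiv ℝ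
  exact h1.comp_left (g := fun L => (InnerProductSpace.toDual ℝ (Rn N)).symm L) (map_zero _)

theorem IsTest.eq_zero {φ : Rn N → ℝ} (h : IsTest Ω φ) {x : Rn N} (hx : x ∉ Ω) : φ x = 0 :=
  image_eq_zero_of_notMem_tsupport (fun h' => hx (h.2.2 h'))

theorem IsTest.gradient_eq_zero {φ : Rn N → ℝ} (h : IsTest Ω φ) {x : Rn N} (hx : x ∉ Ω) :
    ∇ φ x = 0 := by
  have h1 : fderiv ℝ φ x = 0 := by
    apply image_eq_zero_of_notMem_tsupport
    intro h'
    exact hx (h.2.2 (tsupport_fderiv_subset ℝ h'))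
  rw [gradient, h1, map_zero]

theorem IsTest.zero : IsTest Ω (0 : Rn N → ℝ) :=
  ⟨contDiff_const, HasCompactSupport.zero, by simp⟩

theorem IsTest.add {φ ψ : Rn N → ℝ} (h : IsTest Ω φ) (h' : IsTest Ω ψ) : IsTest Ω (φ + ψ) :=
  ⟨h.1.add h'.1, h.2.1.add h'.2.1,
    (tsupport_add φ ψ).trans (Set.union_subset h.2.2 h'.2.2)⟩

theorem IsTest.smul {φ : Rn N → ℝ} (h : IsTest Ω φ) (c : ℝ) : IsTest Ω (c • φ) :=
  ⟨contDiff_const.smul h.1, h.2.1.smul_left (f := fun _ => c),
    (tsupport_smul_subset_right (fun _ => c) φ).trans h.2.2⟩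

theorem IsTest.sub {φ ψ : Rn N → ℝ} (h : IsTest Ω φ) (h' : IsTest Ω ψ) : IsTest Ω (φ - ψ) := by
  have := h.add (h'.smul (-1))
  rwa [neg_one_smul, ← sub_eq_add_neg] at this

theorem IsTest.gradient_add {φ ψ : Rn N → ℝ} (h : IsTest Ω φ) (h' : IsTest Ω ψ) :
    ∇ (φ + ψ) = ∇ φ + ∇ ψ := by
  apply gradient_eq
  intro x
  rw [hasGradientAt_iff_hasFDerivAt]
  have := ((h.hasGradientAt x).hasFDerivAt).add ((h'.hasGradientAt x).hasFDerivAt)
  rw [← map_add] at this
  exact this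

theorem IsTest.gradient_smul {φ : Rn N → ℝ} (h : IsTest Ω φ) (c : ℝ) :
    ∇ (c • φ) = c • ∇ φ := by
  apply gradient_eq
  intro x
  rw [hasGradientAt_iff_hasFDerivAt]
  have := ((h.hasGradientAt x).hasFDerivAt).const_smul c
  rw [Pi.smul_apply, map_smul]
  exact this

theorem IsTest.gradient_sub {φ ψ : Rn N → ℝ} (h : IsTest Ω φ) (h' : IsTest Ω ψ) :
    ∇ (φ - ψ) = ∇ φ - ∇ ψ := by
  have h1 : φ - ψ = φ + (-1 : ℝ) • ψ := by rw [neg_one_smul, sub_eq_add_neg]
  rw [h1, h.gradient_add (h'.smul (-1)), h'.gradient_smul, neg_one_smul, sub_eq_add_neg]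

theorem IsTest.comp {φ : Rn N → ℝ} (h : IsTest Ω φ) {β : ℝ → ℝ} (hβ : ContDiff ℝ ∞ β)
    (h0 : β 0 = 0) : IsTest Ω (β ∘ φ) := by
  refine ⟨hβ.comp h.1, h.2.1.comp_left h0, ?_⟩
  refine subset_trans ?_ h.2.2
  apply closure_mono
  intro x hx hx'
  exact hx (by simp [hx', h0])

theorem IsTest.gradient_comp {φ : Rn N → ℝ} (h : IsTest Ω φ) {β : ℝ → ℝ} (hβ : ContDiff ℝ ∞ β)
    (x : Rn N) : ∇ (β ∘ φ) x = deriv β (φ x) • ∇ φ x := by
  have h1 : HasGradientAt (β ∘ φ) (deriv β (φ x) • ∇ φ x) x := by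
    rw [hasGradientAt_iff_hasFDerivAt]
    have h2 : HasDerivAt β (deriv β (φ x)) (φ x) :=
      (hβ.differentiable (by simp) (φ x)).hasDerivAt
    have := h2.comp_hasFDerivAt x (h.hasGradientAt x).hasFDerivAt
    rw [map_smul]
    exact this
  exact h1.gradient

theorem IsTest.memLp {φ : Rn N → ℝ} (h : IsTest Ω φ) (q : ℝ≥0∞) :
    MemLp φ q (volume.restrict Ω) :=
  (h.continuous.memLp_of_hasCompactSupport h.2.1).restrict Ω

theorem IsTest.memLp_gradient {φ : Rn N → ℝ} (h : IsTest Ω φ) (q : ℝ≥0∞) :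
    MemLp (∇ φ) q (volume.restrict Ω) :=
  (h.continuous_gradient.memLp_of_hasCompactSupport h.hasCompactSupport_gradient).restrict Ω

/-- Integration by parts for test functions. -/
theorem IsTest.integral_by_parts (hΩ : MeasurableSet Ω) {φ ψ : Rn N → ℝ}
    (h : IsTest Ω φ) (h' : IsTest Ω ψ) :
    ∫ x in Ω, φ x • ∇ ψ x = - ∫ x in Ω, ψ x • ∇ φ x := by
  have e1 : ∫ x in Ω, φ x • ∇ ψ x = ∫ x, φ x • ∇ ψ x := by
    apply setIntegral_eq_integral_of_forall_compl_eq_zero
    intro x hx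
    rw [h.eq_zero hx, zero_smul]
  have e2 : ∫ x in Ω, ψ x • ∇ φ x = ∫ x, ψ x • ∇ φ x := by
    apply setIntegral_eq_integral_of_forall_compl_eq_zero
    intro x hx
    rw [h'.eq_zero hx, zero_smul]
  rw [e1, e2]
  have i1 : Integrable (fun x => φ x • ∇ ψ x) :=
    (h.continuous.smul h'.continuous_gradient).integrable_of_hasCompactSupport
      (h.2.1.smul_right)
  have i2 : Integrable (fun x => ψ x • ∇ φ x) :=
    (h'.continuous.smul h.continuous_gradient).integrable_of_hasCompactSupport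
      (h'.2.1.smul_right)
  apply ext_inner_left ℝ
  intro v
  rw [inner_neg_right, ← integral_inner i1, ← integral_inner i2]
  have f1 : ∀ x, inner ℝ v (φ x • ∇ ψ x) = φ x * fderiv ℝ ψ x v := by
    intro x
    rw [inner_smul_right, real_inner_comm, inner_gradient_left]
  have f2 : ∀ x, inner ℝ v (ψ x • ∇ φ x) = fderiv ℝ φ x v * ψ x := by
    intro x
    rw [inner_smul_right, real_inner_comm, inner_gradient_left, mul_comm]
  simp only [f1, f2]
  apply integral_mul_fderiv_eq_neg_fderiv_mul_of_integrable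
  · have := Integrable.const_inner (𝕜 := ℝ) v i2
    simpa only [f2] using this
  · have := Integrable.const_inner (𝕜 := ℝ) v i1
    simpa only [f1] using this
  · exact (h.continuous.mul h'.continuous).integrable_of_hasCompactSupport (h.2.1.mul_right)
  · exact fun x _ => h.differentiable x
  · exact fun x _ => h'.differentiable x

end Pool.Agent.Lib_MP_83d99e_an
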