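import Pool.Agent.Lib_MP_83d99e_an.UC

set_option autoImplicit false

open MeasureTheory Filter Topology
open scoped ENNReal

namespace Pool.Agent.Lib_MP_83d99e_an

variable {V : Type*} [NormedAddCommGroup V] [InnerProductSpace ℝ V]
  {α : Type*} {m : MeasurableSpace α} {μ : Measure α}

theorem conj_exp {p : ℝ} (hp : 1 < p) : p.HolderConjugate (p / (p - 1)) :=
  Real.HolderConjugate.conjExponent hp

theorem ofReal_p_ne_zero {p : ℝ} (hp : 1 < p) : ENNReal.ofReal p ≠ 0 := by
  simp; linarith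

theorem conv_iff {ι : Type*} {l : Filter ι} {p : ℝ} (hp : 1 < p) {f : ι → α → V}
    (hf : ∀ k, MemLp (f k) (ENNReal.ofReal p) μ) :
    Tendsto (fun k => eLpNorm (f k) (ENNReal.ofReal p) μ) l (𝓝 0) ↔
      Tendsto (fun k => ∫ x, ‖f k x‖ ^ p ∂μ) l (𝓝 0) := by
  have hp0 : 0 < p := by linarith
  have h1 : ∀ k, eLpNorm (f k) (ENNReal.ofReal p) μ =
      ENNReal.ofReal ((∫ x, ‖f k x‖ ^ p ∂μ) ^ p⁻¹) := by
    intro k
    rw [(hf k).eLpNorm_eq_integral_rpow_norm (ofReal_p_ne_zero hp) ENNReal.ofReal_ne_top,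
      ENNReal.toReal_ofReal hp0.le]
  have hnn : ∀ k, 0 ≤ ∫ x, ‖f k x‖ ^ p ∂μ := fun k =>
    integral_nonneg fun x => Real.rpow_nonneg (norm_nonneg _) _
  simp only [h1]
  constructor
  · intro h
    have h2 : Tendsto (fun k => (∫ x, ‖f k x‖ ^ p ∂μ) ^ p⁻¹) l (𝓝 0) := by
      have := (ENNReal.tendsto_toReal ENNReal.zero_ne_top).comp h
      rw [ENNReal.toReal_zero] at this
      refine this.congr ?_
      intro k
      exact ENNReal.toReal_ofReal (Real.rpow_nonneg (hnn k) _)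
    have h3 := h2.rpow_const (p := p) (Or.inr hp0.le)
    rw [Real.zero_rpow hp0.ne'] at h3
    refine h3.congr ?_
    intro k
    rw [← Real.rpow_mul (hnn k), inv_mul_cancel₀ hp0.ne', Real.rpow_one]
  · intro h
    have h2 := h.rpow_const (p := p⁻¹) (Or.inr (by positivity))
    rw [Real.zero_rpow (by positivity)] at h2
    have h3 := ENNReal.tendsto_ofReal h2
    rwa [ENNReal.ofReal_zero] at h3

theorem integrable_rpow_norm {p : ℝ} (hp : 1 < p) {f : α → V}
    (hf : MemLp f (ENNReal.ofReal p) μ) : Integrable (fun x => ‖f x‖ ^ p) μ := by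
  have := hf.integrable_norm_rpow (ofReal_p_ne_zero hp) ENNReal.ofReal_ne_top
  rwa [ENNReal.toReal_ofReal (by linarith)] at this

theorem integrable_inner_of_conj {p : ℝ} (hp : 1 < p) {f g : α → V}
    (hf : MemLp f (ENNReal.ofReal (p / (p - 1))) μ) (hg : MemLp g (ENNReal.ofReal p) μ) :
    Integrable (fun x => (inner ℝ (f x) (g x) : ℝ)) μ := by
  have hq : 1 < p / (p - 1) := by
    rw [lt_div_iff₀ (by linarith)]; linarith
  have h1 := integrable_rpow_norm hp hg
  have h2 := integrable_rpow_norm hq hf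
  have hbound : Integrable (fun x => ‖f x‖ ^ (p / (p - 1)) / (p / (p - 1)) + ‖g x‖ ^ p / p) μ :=
    (h2.div_const _).add (h1.div_const _)
  refine hbound.mono' (hf.1.inner hg.1) (ae_of_all _ fun x => ?_)
  have h3 := Real.young_inequality_of_nonneg (norm_nonneg (f x)) (norm_nonneg (g x))
    (conj_exp hp).symm
  exact (norm_inner_le_norm (𝕜 := ℝ) _ _).trans h3

theorem pairing_tendsto {ι : Type*} {l : Filter ι} {p : ℝ} (hp : 1 < p) {f : α → V}
    {gk : ι → α → V} {g : α → V}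
    (hf : MemLp f (ENNReal.ofReal (p / (p - 1))) μ)
    (hgk : ∀ k, MemLp (gk k) (ENNReal.ofReal p) μ) (hg : MemLp g (ENNReal.ofReal p) μ)
    (h : Tendsto (fun k => eLpNorm (gk k - g) (ENNReal.ofReal p) μ) l (𝓝 0)) :
    Tendsto (fun k => ∫ x, (inner ℝ (f x) (gk k x) : ℝ) ∂μ) l
      (𝓝 (∫ x, (inner ℝ (f x) (g x) : ℝ) ∂μ)) := by
  rw [conv_iff hp (fun k => (hgk k).sub hg)] at h
  have hbound : ∀ k, |∫ x, (inner ℝ (f x) (gk k x) : ℝ) ∂μ - ∫ x, (inner ℝ (f x) (g x) : ℝ) ∂μ| ≤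
      (∫ x, ‖f x‖ ^ (p / (p - 1)) ∂μ) ^ (1 / (p / (p - 1))) *
      (∫ x, ‖(gk k - g) x‖ ^ p ∂μ) ^ (1 / p) := by
    intro k
    rw [← integral_sub (integrable_inner_of_conj hp hf (hgk k)) (integrable_inner_of_conj hp hf hg)]
    refine le_trans ?_ (integral_mul_norm_le_Lp_mul_Lq (conj_exp hp).symm hf ((hgk k).sub hg))
    have h1 := integrable_inner_of_conj hp hf ((hgk k).sub hg)
    have e1 : ∀ x, (inner ℝ (f x) (gk k x) : ℝ) - inner ℝ (f x) (g x) =
        inner ℝ (f x) ((gk k - g) x) := by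
      intro x
      rw [Pi.sub_apply, inner_sub_right]
    simp only [e1]
    refine (abs_integral_le_integral_abs).trans ?_
    apply integral_mono_of_nonneg (ae_of_all _ fun x => abs_nonneg _)
    · have hq : 1 < p / (p - 1) := by
        rw [lt_div_iff₀ (by linarith)]; linarith
      have h1 := integrable_rpow_norm hp ((hgk k).sub hg)
      have h2 := integrable_rpow_norm hq hf
      have hb : Integrable (fun x => ‖f x‖ ^ (p / (p - 1)) / (p / (p - 1)) +
          ‖(gk k - g) x‖ ^ p / p) μ :=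
        (h2.div_const _).add (h1.div_const _)
      refine hb.mono' (hf.1.norm.mul ((hgk k).sub hg).1.norm) (ae_of_all _ fun x => ?_)
      have h3 := Real.young_inequality_of_nonneg (norm_nonneg (f x)) (norm_nonneg ((gk k - g) x))
        (conj_exp hp).symm
      rw [Real.norm_eq_abs, abs_of_nonneg (by positivity)]
      exact h3
    · exact ae_of_all _ fun x => abs_real_inner_le_norm _ _
  have h2 : Tendsto (fun k => (∫ x, ‖f x‖ ^ (p / (p - 1)) ∂μ) ^ (1 / (p / (p - 1))) *
      (∫ x, ‖(gk k - g) x‖ ^ p ∂μ) ^ (1 / p)) l (𝓝 0) := by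
    have h3 := h.rpow_const (p := 1 / p) (Or.inr (by positivity))
    rw [Real.zero_rpow (by positivity)] at h3
    have h4 := h3.const_mul ((∫ x, ‖f x‖ ^ (p / (p - 1)) ∂μ) ^ (1 / (p / (p - 1))))
    rwa [mul_zero] at h4
  rw [tendsto_iff_norm_sub_tendsto_zero]
  exact squeeze_zero (fun k => norm_nonneg _) hbound h2

theorem pflux_memLp {p : ℝ} (hp : 1 < p) {G : α → V}
    (hG : MemLp G (ENNReal.ofReal p) μ) :
    MemLp (fun x => pflux p (G x)) (ENNReal.ofReal (p / (p - 1))) μ := by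
  have hq : 1 < p / (p - 1) := by
    rw [lt_div_iff₀ (by linarith)]; linarith
  have hmeas : AEStronglyMeasurable (fun x => pflux p (G x)) μ := by
    unfold pflux
    have h1 : AEMeasurable (fun x => ‖G x‖ ^ (p - 2)) μ := hG.1.norm.aemeasurable.pow_const _
    exact h1.aestronglyMeasurable.smul hG.1
  rw [← integrable_norm_rpow_iff hmeas (by simp; linarith) ENNReal.ofReal_ne_top,
    ENNReal.toReal_ofReal (by linarith)]
  refine (integrable_rpow_norm hp hG).congr (ae_of_all _ fun x => ?_)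
  simp only
  rw [norm_pflux hp, ← Real.rpow_mul (norm_nonneg _)]
  congr 1
  have : p - 1 ≠ 0 := by linarith
  field_simp

end Pool.Agent.Lib_MP_83d99e_an
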