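import Pool.Agent.Lib_MP_83d99e_an.Poincare
import Pool.Agent.Lib_MP_83d99e_an.Conv

set_option autoImplicit false

open MeasureTheory Filter Topology
open scoped ContDiff ENNReal Gradient

namespace Pool.Agent.Lib_MP_83d99e_an

variable {N : ℕ} {Ω : Set (Rn N)}

theorem smooth_deriv_bound : ∃ M : ℝ, 0 ≤ M ∧ ∀ t : ℝ, |deriv Real.smoothTransition t| ≤ M := by
  have hcont : Continuous (deriv Real.smoothTransition) :=
    (Real.smoothTransition.contDiff (n := 1)).continuous_deriv le_rfl
  have hsupp : HasCompactSupport (deriv Real.smoothTransition) := by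
    apply HasCompactSupport.intro (isCompact_Icc : IsCompact (Set.Icc (0:ℝ) 1))
    intro x hx
    rw [Set.mem_Icc, not_and_or] at hx
    rcases hx with hx | hx
    · push Not at hx
      have : Real.smoothTransition =ᶠ[𝓝 x] fun _ => 0 := by
        filter_upwards [Iio_mem_nhds hx] with y hy
        exact Real.smoothTransition.zero_of_nonpos (le_of_lt hy)
      rw [this.deriv_eq]; simp
    · push Not at hx
      have : Real.smoothTransition =ᶠ[𝓝 x] fun _ => 1 := by
        filter_upwards [Ioi_mem_nhds hx] with y hy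
        exact Real.smoothTransition.one_of_one_le (le_of_lt hy)
      rw [this.deriv_eq]; simp
  obtain ⟨M, hM⟩ := hcont.bounded_above_of_compact_support hsupp
  refine ⟨max M 0, le_max_right _ _, fun t => ?_⟩
  exact (hM t).trans (le_max_left _ _)

/-- Weak comparison principle. -/
theorem comparison (hN : 1 ≤ N) (hb : Bornology.IsBounded Ω) {p : ℝ} (hp : 1 < p)
    {F F' u v : Rn N → ℝ}
    (hF : MemLp F (ENNReal.ofReal (p / (p - 1))) (volume.restrict Ω))
    (hF' : MemLp F' (ENNReal.ofReal (p / (p - 1))) (volume.restrict Ω))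
    (hu : IsDirichletSolution Ω p F u) (hv : IsDirichletSolution Ω p F' v)
    (hle : ∀ᵐ x ∂(volume.restrict Ω), F' x ≤ F x) :
    ∀ᵐ x ∂(volume.restrict Ω), v x ≤ u x := by
  have hp0 : 0 < p := by linarith
  set P := ENNReal.ofReal p with hP
  have hP1 : 1 ≤ P := by
    rw [hP, ← ENNReal.ofReal_one]; exact ENNReal.ofReal_le_ofReal hp.le
  set μ := volume.restrict Ω with hμ
  have hfin : IsFiniteMeasure μ := by
    rw [hμ]
    exact ⟨by rw [Measure.restrict_apply_univ]; exact hb.measure_lt_top⟩
  obtain ⟨G, ⟨hu1, hG1, _, φ, hφ, hφu, hφG⟩, hwu⟩ := hu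
  obtain ⟨K, ⟨hv1, hK1, _, ψ, hψ, hψv, hψK⟩, hwv⟩ := hv
  -- differences
  have hw : ∀ k, IsTest Ω (ψ k - φ k) := fun k => (hψ k).sub (hφ k)
  have hwlim : Tendsto (fun k => eLpNorm ((ψ k - φ k) - (v - u)) P μ) atTop (𝓝 0) := by
    have h1 := hψv.add hφu
    rw [add_zero] at h1
    refine tendsto_of_tendsto_of_tendsto_of_le_of_le tendsto_const_nhds h1
      (fun _ => zero_le) (fun k => ?_)
    have : (ψ k - φ k) - (v - u) = (ψ k - v) - (φ k - u) := by abel
    rw [this]
    exact eLpNorm_sub_le (((hψ k).memLp P).sub hv1).1 (((hφ k).memLp P).sub hu1).1 hP1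
  have hHlim : Tendsto (fun k => eLpNorm (∇ (ψ k - φ k) - (K - G)) P μ) atTop (𝓝 0) := by
    have h1 := hψK.add hφG
    rw [add_zero] at h1
    refine tendsto_of_tendsto_of_tendsto_of_le_of_le tendsto_const_nhds h1
      (fun _ => zero_le) (fun k => ?_)
    have : ∇ (ψ k - φ k) - (K - G) = (∇ (ψ k) - K) - (∇ (φ k) - G) := by
      rw [(hψ k).gradient_sub (hφ k)]; abel
    rw [this]
    exact eLpNorm_sub_le (((hψ k).memLp_gradient P).sub hK1).1
      (((hφ k).memLp_gradient P).sub hG1).1 hP1
  -- a.e. convergent subsequence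
  obtain ⟨ns, hns, hae⟩ := (tendstoInMeasure_of_tendsto_eLpNorm (ofReal_p_ne_zero hp)
    (fun k => ((hw k).memLp P).1) (hv1.sub hu1).1 hwlim).exists_seq_tendsto_ae
  set w : ℕ → Rn N → ℝ := fun k => ψ (ns k) - φ (ns k) with hwdef
  have hwt : ∀ k, IsTest Ω (w k) := fun k => hw (ns k)
  have hHlim' : Tendsto (fun k => eLpNorm (∇ (w k) - (K - G)) P μ) atTop (𝓝 0) :=
    hHlim.comp hns.tendsto_atTop
  set β := Real.smoothTransition with hβ
  have hβc : ContDiff ℝ ∞ β := Real.smoothTransition.contDiff
  have hβ0 : β 0 = 0 := Real.smoothTransition.zero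
  have hβd : Continuous (deriv β) :=
    (Real.smoothTransition.contDiff (n := 1)).continuous_deriv le_rfl
  obtain ⟨M, hM0, hM⟩ := smooth_deriv_bound
  set ζ : ℕ → Rn N → ℝ := fun k => β ∘ (w k) with hζ
  have hζt : ∀ k, IsTest Ω (ζ k) := fun k => (hwt k).comp hβc hβ0
  have hζg : ∀ k x, ∇ (ζ k) x = deriv β (w k x) • ∇ (w k) x := fun k x =>
    (hwt k).gradient_comp hβc x
  set Z : Rn N → Rn N := fun x => deriv β ((v - u) x) • (K - G) x with hZ
  have hKG : MemLp (K - G) P μ := hK1.sub hG1
  have hmeasd : AEStronglyMeasurable (fun x => deriv β ((v - u) x)) μ :=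
    hβd.comp_aestronglyMeasurable (hv1.sub hu1).1
  have hZmem : MemLp Z P μ := by
    refine (hKG.const_smul M).mono (hmeasd.smul hKG.1) (ae_of_all _ fun x => ?_)
    simp only [hZ, Pi.smul_apply, norm_smul, Real.norm_eq_abs]
    rw [abs_of_nonneg hM0]
    exact mul_le_mul_of_nonneg_right (hM _) (norm_nonneg _)
  -- convergence of the gradients of ζ
  have hζlim : Tendsto (fun k => eLpNorm (∇ (ζ k) - Z) P μ) atTop (𝓝 0) := by
    have hA : Tendsto (fun k => eLpNorm
        (fun x => (deriv β (w k x) - deriv β ((v - u) x)) • (K - G) x) P μ) atTop (𝓝 0) := by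
      have hmem : ∀ k, MemLp (fun x => (deriv β (w k x) - deriv β ((v - u) x)) • (K - G) x) P μ := by
        intro k
        have hm : AEStronglyMeasurable (fun x => deriv β (w k x) - deriv β ((v - u) x)) μ :=
          (hβd.comp_aestronglyMeasurable ((hwt k).memLp P).1).sub hmeasd
        refine (hKG.const_smul (2 * M)).mono (hm.smul hKG.1) (ae_of_all _ fun x => ?_)
        simp only [Pi.smul_apply, norm_smul, Real.norm_eq_abs]
        rw [abs_of_nonneg (by positivity : 0 ≤ 2 * M)]
        apply mul_le_mul_of_nonneg_right _ (norm_nonneg _)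
        refine (abs_sub _ _).trans ?_
        linarith [hM (w k x), hM ((v - u) x)]
      rw [conv_iff hp hmem]
      have hz : (0 : ℝ) = ∫ x, (0 : ℝ) ∂μ := by simp
      rw [hz]
      apply tendsto_integral_of_dominated_convergence (fun x => (2 * M) ^ p * ‖(K - G) x‖ ^ p)
      · intro k
        exact ((hmem k).1.norm.aemeasurable.pow_const p).aestronglyMeasurable
      · exact (integrable_rpow_norm hp hKG).const_mul _
      · intro k
        refine ae_of_all _ fun x => ?_
        rw [Real.norm_eq_abs, abs_of_nonneg (by positivity), norm_smul,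
          Real.mul_rpow (norm_nonneg _) (norm_nonneg _), Real.norm_eq_abs]
        apply mul_le_mul_of_nonneg_right _ (by positivity)
        apply Real.rpow_le_rpow (abs_nonneg _) _ hp0.le
        refine (abs_sub _ _).trans ?_
        linarith [hM (w k x), hM ((v - u) x)]
      · filter_upwards [hae] with x hx
        have h1 : Tendsto (fun k => deriv β (w k x) - deriv β ((v - u) x)) atTop (𝓝 0) := by
          have := ((hβd.tendsto _).comp hx).sub_const (deriv β ((v - u) x))
          rwa [sub_self] at this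
        have h2 : Tendsto (fun k => ‖(deriv β (w k x) - deriv β ((v - u) x)) • (K - G) x‖) atTop
            (𝓝 0) := by
          have := (h1.smul_const ((K - G) x)).norm
          rwa [zero_smul, norm_zero] at this
        have h3 := h2.rpow_const (p := p) (Or.inr hp0.le)
        rwa [Real.zero_rpow hp0.ne'] at h3
    have hB : Tendsto (fun k => eLpNorm (fun x => deriv β (w k x) • (∇ (w k) - (K - G)) x) P μ)
        atTop (𝓝 0) := by
      have h1 : Tendsto (fun k => ENNReal.ofReal M * eLpNorm (∇ (w k) - (K - G)) P μ) atTop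
          (𝓝 0) := by
        have := ENNReal.Tendsto.const_mul (a := ENNReal.ofReal M) hHlim' (Or.inr ENNReal.ofReal_ne_top)
        rwa [mul_zero] at this
      refine tendsto_of_tendsto_of_tendsto_of_le_of_le tendsto_const_nhds h1
        (fun _ => zero_le) (fun k => ?_)
      apply eLpNorm_le_mul_eLpNorm_of_ae_le_mul
      refine ae_of_all _ fun x => ?_
      rw [norm_smul, Real.norm_eq_abs]
      exact mul_le_mul_of_nonneg_right (hM _) (norm_nonneg _)
    have h1 := hB.add hA
    rw [add_zero] at h1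
    refine tendsto_of_tendsto_of_tendsto_of_le_of_le tendsto_const_nhds h1
      (fun _ => zero_le) (fun k => ?_)
    have : ∇ (ζ k) - Z = (fun x => deriv β (w k x) • (∇ (w k) - (K - G)) x) +
        (fun x => (deriv β (w k x) - deriv β ((v - u) x)) • (K - G) x) := by
      funext x
      simp only [Pi.sub_apply, Pi.add_apply, hζg, hZ]
      module
    rw [this]
    apply eLpNorm_add_le _ _ hP1
    · exact ((hβd.comp_aestronglyMeasurable ((hwt k).memLp P).1).smul
        (((hwt k).memLp_gradient P).sub hKG).1)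
    · exact (((hβd.comp_aestronglyMeasurable ((hwt k).memLp P).1).sub hmeasd).smul hKG.1)
  -- the weak formulation tested with ζ
  have hflux : MemLp (fun x => pflux p (K x) - pflux p (G x)) (ENNReal.ofReal (p / (p - 1))) μ :=
    (pflux_memLp hp hK1).sub (pflux_memLp hp hG1)
  have hneg : ∀ k, ∫ x, (inner ℝ (pflux p (K x) - pflux p (G x)) (∇ (ζ k) x) : ℝ) ∂μ ≤ 0 := by
    intro k
    have e1 := hwv (ζ k) (hζt k)
    have e2 := hwu (ζ k) (hζt k)
    have i1 := integrable_inner_of_conj hp (pflux_memLp hp hK1) ((hζt k).memLp_gradient P)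
    have i2 := integrable_inner_of_conj hp (pflux_memLp hp hG1) ((hζt k).memLp_gradient P)
    have j1 := integrable_inner_of_conj hp hF' ((hζt k).memLp P)
    have j2 := integrable_inner_of_conj hp hF ((hζt k).memLp P)
    have s1 : ∫ x, (inner ℝ (pflux p (K x) - pflux p (G x)) (∇ (ζ k) x) : ℝ) ∂μ =
        ∫ x, (inner ℝ (pflux p (K x)) (∇ (ζ k) x) : ℝ) ∂μ -
        ∫ x, (inner ℝ (pflux p (G x)) (∇ (ζ k) x) : ℝ) ∂μ := by
      rw [← integral_sub i1 i2]
      apply integral_congr_ae (ae_of_all _ fun x => ?_)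
      exact inner_sub_left _ _ _
    have s2 : ∫ x, (inner ℝ (pflux p (K x)) (∇ (ζ k) x) : ℝ) ∂μ = ∫ x, F' x * ζ k x ∂μ := by
      rw [← e1]
      apply integral_congr_ae (ae_of_all _ fun x => ?_)
      simp only [pflux]
      rw [real_inner_smul_left]
    have s3 : ∫ x, (inner ℝ (pflux p (G x)) (∇ (ζ k) x) : ℝ) ∂μ = ∫ x, F x * ζ k x ∂μ := by
      rw [← e2]
      apply integral_congr_ae (ae_of_all _ fun x => ?_)
      simp only [pflux]
      rw [real_inner_smul_left]
    rw [s1, s2, s3, sub_nonpos]
    have j1' : Integrable (fun x => F' x * ζ k x) μ := by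
      refine j1.congr (ae_of_all _ fun x => ?_)
      simp [mul_comm]
    have j2' : Integrable (fun x => F x * ζ k x) μ := by
      refine j2.congr (ae_of_all _ fun x => ?_)
      simp [mul_comm]
    apply integral_mono_ae j1' j2'
    filter_upwards [hle] with x hx
    exact mul_le_mul_of_nonneg_right hx (Real.smoothTransition.nonneg _)
  -- pass to the limit
  have hlim := pairing_tendsto hp hflux (fun k => (hζt k).memLp_gradient P) hZmem hζlim
  have hZneg : ∫ x, (inner ℝ (pflux p (K x) - pflux p (G x)) (Z x) : ℝ) ∂μ ≤ 0 :=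
    le_of_tendsto' hlim hneg
  have hZnn : ∀ x, 0 ≤ (inner ℝ (pflux p (K x) - pflux p (G x)) (Z x) : ℝ) := by
    intro x
    simp only [hZ, Pi.sub_apply]
    rw [real_inner_smul_right]
    exact mul_nonneg Real.smoothTransition.monotone.deriv_nonneg (pflux_mono hp _ _)
  have hZint := integrable_inner_of_conj hp hflux hZmem
  have hZzero : (fun x => (inner ℝ (pflux p (K x) - pflux p (G x)) (Z x) : ℝ)) =ᵐ[μ] 0 := by
    rw [← integral_eq_zero_iff_of_nonneg hZnn hZint]
    exact le_antisymm hZneg (integral_nonneg hZnn)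
  have hZ0 : Z =ᵐ[μ] 0 := by
    filter_upwards [hZzero] with x hx
    simp only [hZ, Pi.zero_apply, Pi.sub_apply] at hx ⊢
    rw [real_inner_smul_right] at hx
    rcases mul_eq_zero.mp hx with h | h
    · rw [h, zero_smul]
    · rw [pflux_strict hp h, sub_self, smul_zero]
  -- gradients of ζ tend to zero
  have hζ0 : Tendsto (fun k => eLpNorm (∇ (ζ k)) P μ) atTop (𝓝 0) := by
    refine hζlim.congr fun k => ?_
    apply eLpNorm_congr_ae
    filter_upwards [hZ0] with x hx
    rw [Pi.sub_apply, hx, Pi.zero_apply, sub_zero]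
  rw [conv_iff hp (fun k => (hζt k).memLp_gradient P)] at hζ0
  obtain ⟨C, hC, hpoin⟩ := poincare hN hb hp.le
  have hζ1 : Tendsto (fun k => ∫ x, ‖ζ k x‖ ^ p ∂μ) atTop (𝓝 0) := by
    have h1 := hζ0.const_mul C
    rw [mul_zero] at h1
    refine tendsto_of_tendsto_of_tendsto_of_le_of_le tendsto_const_nhds h1
      (fun k => integral_nonneg fun x => by positivity) (fun k => hpoin _ (hζt k))
  have hζ2 : Tendsto (fun k => ∫ x, ‖ζ k x‖ ^ p ∂μ) atTop
      (𝓝 (∫ x, ‖β ((v - u) x)‖ ^ p ∂μ)) := by
    apply tendsto_integral_of_dominated_convergence (fun _ => (1 : ℝ))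
    · intro k
      exact (((hζt k).memLp P).1.norm.aemeasurable.pow_const p).aestronglyMeasurable
    · exact integrable_const _
    · intro k
      refine ae_of_all _ fun x => ?_
      rw [Real.norm_eq_abs, abs_of_nonneg (by positivity)]
      apply Real.rpow_le_one (norm_nonneg _) _ hp0.le
      show ‖Real.smoothTransition (w k x)‖ ≤ 1
      rw [Real.norm_eq_abs, abs_of_nonneg (Real.smoothTransition.nonneg _)]
      exact Real.smoothTransition.le_one _
    · filter_upwards [hae] with x hx
      have h1 : Tendsto (fun k => ζ k x) atTop (𝓝 (β ((v - u) x))) :=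
        (Real.smoothTransition.continuous.tendsto _).comp hx
      exact h1.norm.rpow_const (Or.inr hp0.le)
  have hzero : ∫ x, ‖β ((v - u) x)‖ ^ p ∂μ = 0 := tendsto_nhds_unique hζ2 hζ1
  have hint : Integrable (fun x => ‖β ((v - u) x)‖ ^ p) μ := by
    refine (integrable_const (1 : ℝ)).mono' ?_ (ae_of_all _ fun x => ?_)
    · exact ((Real.smoothTransition.continuous.comp_aestronglyMeasurable
        (hv1.sub hu1).1).norm.aemeasurable.pow_const p).aestronglyMeasurable
    · rw [Real.norm_eq_abs, abs_of_nonneg (by positivity)]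
      apply Real.rpow_le_one (norm_nonneg _) _ hp0.le
      rw [Real.norm_eq_abs, abs_of_nonneg (Real.smoothTransition.nonneg _)]
      exact Real.smoothTransition.le_one _
  rw [integral_eq_zero_iff_of_nonneg (fun x => by positivity) hint] at hzero
  filter_upwards [hzero] with x hx
  simp only [Pi.zero_apply] at hx
  rw [Real.rpow_eq_zero (norm_nonneg _) hp0.ne', norm_eq_zero] at hx
  have := Real.smoothTransition.zero_iff_nonpos.mp hx
  simp only [Pi.sub_apply] at this
  linarith

end Pool.Agent.Lib_MP_83d99e_an
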