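import Mathlib

/-!
# Definitions for `MP_83d99e_an`: the p-Laplace Dirichlet problem and singular sets
-/

set_option autoImplicit false

open MeasureTheory Filter Topology
open scoped ContDiff ENNReal

namespace Pool.Agent.Lib_MP_83d99e_an

/-- The Euclidean space `ℝ^N`. -/
abbrev Rn (N : ℕ) : Type := EuclideanSpace ℝ (Fin N)

/-- `φ ∈ C_c^∞(Ω)`: a smooth function on `ℝ^N` with compact support contained in `Ω`. -/
def IsTest {N : ℕ} (Ω : Set (Rn N)) (φ : Rn N → ℝ) : Prop :=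
  ContDiff ℝ ∞ φ ∧ HasCompactSupport φ ∧ tsupport φ ⊆ Ω

/-- `G` is the weak (distributional) gradient of `u` in `Ω`:
`∫_Ω u ∇φ = - ∫_Ω φ G` for all `φ ∈ C_c^∞(Ω)`. -/
def IsWeakGradient {N : ℕ} (Ω : Set (Rn N)) (u : Rn N → ℝ) (G : Rn N → Rn N) : Prop :=
  ∀ φ : Rn N → ℝ, IsTest Ω φ → ∫ x in Ω, u x • gradient φ x = - ∫ x in Ω, φ x • G x

/-- `u ∈ W_0^{1,p}(Ω)` with weak gradient `G`: `u` and `G` are in `L^p(Ω)`, `G` is the weak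
gradient of `u`, and `u` is a limit in the norm of `W^{1,p}(Ω)` of functions in `C_c^∞(Ω)`. -/
def MemW0 {N : ℕ} (Ω : Set (Rn N)) (p : ℝ) (u : Rn N → ℝ) (G : Rn N → Rn N) : Prop :=
  MemLp u (ENNReal.ofReal p) (volume.restrict Ω) ∧
  MemLp G (ENNReal.ofReal p) (volume.restrict Ω) ∧
  IsWeakGradient Ω u G ∧
  ∃ φ : ℕ → Rn N → ℝ, (∀ k, IsTest Ω (φ k)) ∧
    Tendsto (fun k => eLpNorm (φ k - u) (ENNReal.ofReal p) (volume.restrict Ω)) atTop (𝓝 0) ∧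
    Tendsto (fun k => eLpNorm (gradient (φ k) - G) (ENNReal.ofReal p) (volume.restrict Ω))
      atTop (𝓝 0)

/-- `u ∈ W_0^{1,p}(Ω)` satisfies `-Δ_p u = F` in `𝒟'(Ω)`, where
`Δ_p u = div(|∇u|^{p-2} ∇u)`. -/
def IsDirichletSolution {N : ℕ} (Ω : Set (Rn N)) (p : ℝ) (F u : Rn N → ℝ) : Prop :=
  ∃ G : Rn N → Rn N, MemW0 Ω p u G ∧ ∀ φ : Rn N → ℝ, IsTest Ω φ →
    ∫ x in Ω, ‖G x‖ ^ (p - 2) * inner ℝ (G x) (gradient φ x) = ∫ x in Ω, F x * φ x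

/-- The solution set `X(Ω,p)`: all `u ∈ W_0^{1,p}(Ω)` with `-Δ_p u = F` in `𝒟'(Ω)` for some
`F ∈ L^{p'}(Ω)`, `p' = p/(p-1)`. -/
def solutionSet {N : ℕ} (Ω : Set (Rn N)) (p : ℝ) : Set (Rn N → ℝ) :=
  {u | ∃ F : Rn N → ℝ, MemLp F (ENNReal.ofReal (p / (p - 1))) (volume.restrict Ω) ∧
    IsDirichletSolution Ω p F u}

/-- The singular set `Sing u`: all `a ∈ Ω` for which there are `C, γ, r > 0` with
`u(x) ≥ C |x-a|^{-γ}` for almost every `x ∈ B_r(a)` (with `B_r(a) ⊆ Ω`). -/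
def Sing {N : ℕ} (Ω : Set (Rn N)) (u : Rn N → ℝ) : Set (Rn N) :=
  {a | a ∈ Ω ∧ ∃ C γ r : ℝ, 0 < C ∧ 0 < γ ∧ 0 < r ∧ Metric.ball a r ⊆ Ω ∧
    ∀ᵐ x ∂(volume.restrict (Metric.ball a r)), C * ‖x - a‖ ^ (-γ) ≤ u x}

/-- The singular dimension of a set of functions: the supremum of the Hausdorff dimensions of the
singular sets. -/
noncomputable def singDim {N : ℕ} (Ω : Set (Rn N)) (X : Set (Rn N → ℝ)) : ℝ≥0∞ :=
  ⨆ u ∈ X, dimH (Sing Ω u)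

end Pool.Agent.Lib_MP_83d99e_an
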