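import Pool.Agent.Lib_MP_83d99e_an.Poincare
import Pool.Agent.Lib_MP_83d99e_an.Conv

set_option autoImplicit false

open MeasureTheory Filter Topology
open scoped ContDiff ENNReal Gradient

namespace Pool.Agent.Lib_MP_83d99e_an

section general

variable {V : Type*} [NormedAddCommGroup V] [InnerProductSpace ℝ V] [CompleteSpace V]
  {α : Type*} {m : MeasurableSpace α} {μ : Measure α}

theorem exists_lim {p : ℝ} (hp : 1 < p) {f : ℕ → α → V}
    (hf : ∀ k, MemLp (f k) (ENNReal.ofReal p) μ)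
    (h : Tendsto (fun n : ℕ × ℕ => ∫ x, ‖(f n.1 - f n.2) x‖ ^ p ∂μ) atTop (𝓝 0)) :
    ∃ g, MemLp g (ENNReal.ofReal p) μ ∧
      Tendsto (fun k => eLpNorm (f k - g) (ENNReal.ofReal p) μ) atTop (𝓝 0) := by
  have hP1 : 1 ≤ ENNReal.ofReal p := by
    rw [← ENNReal.ofReal_one]; exact ENNReal.ofReal_le_ofReal hp.le
  have : Fact (1 ≤ ENNReal.ofReal p) := ⟨hP1⟩
  rw [← conv_iff hp (fun n : ℕ × ℕ => (hf n.1).sub (hf n.2))] at h
  have hc : CauchySeq (fun k => (hf k).toLp (f k)) := by
    rw [Lp.cauchySeq_Lp_iff_cauchySeq_eLpNorm]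
    refine h.congr fun n => ?_
    apply eLpNorm_congr_ae
    filter_upwards [(hf n.1).coeFn_toLp, (hf n.2).coeFn_toLp] with x h1 h2
    simp only [Pi.sub_apply]
    rw [h1, h2]
  obtain ⟨g, hg⟩ := cauchySeq_tendsto_of_complete hc
  refine ⟨g, Lp.memLp g, ?_⟩
  rw [Lp.tendsto_Lp_iff_tendsto_eLpNorm'] at hg
  refine hg.congr fun n => ?_
  apply eLpNorm_congr_ae
  filter_upwards [(hf n).coeFn_toLp] with x h1
  simp only [Pi.sub_apply]
  rw [h1]

theorem norm_tendsto {p : ℝ} (hp : 1 < p) {f : ℕ → α → V} {g : α → V}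
    (hf : ∀ k, MemLp (f k) (ENNReal.ofReal p) μ) (hg : MemLp g (ENNReal.ofReal p) μ)
    (h : Tendsto (fun k => eLpNorm (f k - g) (ENNReal.ofReal p) μ) atTop (𝓝 0)) :
    Tendsto (fun k => ∫ x, ‖f k x‖ ^ p ∂μ) atTop (𝓝 (∫ x, ‖g x‖ ^ p ∂μ)) := by
  have hp0 : 0 < p := by linarith
  have hP1 : 1 ≤ ENNReal.ofReal p := by
    rw [← ENNReal.ofReal_one]; exact ENNReal.ofReal_le_ofReal hp.le
  have : Fact (1 ≤ ENNReal.ofReal p) := ⟨hP1⟩
  have h1 : Tendsto (fun k => (hf k).toLp (f k)) atTop (𝓝 (hg.toLp g)) := by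
    rw [Lp.tendsto_Lp_iff_tendsto_eLpNorm]
    refine h.congr fun n => ?_
    apply eLpNorm_congr_ae
    filter_upwards [(hf n).coeFn_toLp] with x h1
    simp only [Pi.sub_apply]
    rw [h1]
  have h2 := h1.norm.rpow_const (p := p) (Or.inr hp0.le)
  have key : ∀ (f : α → V) (hf : MemLp f (ENNReal.ofReal p) μ),
      ‖hf.toLp f‖ ^ p = ∫ x, ‖f x‖ ^ p ∂μ := by
    intro f hf
    rw [Lp.norm_toLp, hf.eLpNorm_eq_integral_rpow_norm (ofReal_p_ne_zero hp) ENNReal.ofReal_ne_top,
      ENNReal.toReal_ofReal hp0.le]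
    have hnn : 0 ≤ ∫ x, ‖f x‖ ^ p ∂μ := integral_nonneg fun x => by positivity
    rw [ENNReal.toReal_ofReal (Real.rpow_nonneg hnn _), ← Real.rpow_mul hnn,
      inv_mul_cancel₀ hp0.ne', Real.rpow_one]
  simp only [key] at h2
  exact h2

theorem hasDerivAt_energy {p : ℝ} (hp : 1 < p) {G H : α → V}
    (hG : MemLp G (ENNReal.ofReal p) μ) (hH : MemLp H (ENNReal.ofReal p) μ) :
    HasDerivAt (fun t : ℝ => ∫ x, ‖G x + t • H x‖ ^ p ∂μ)
      (∫ x, p * (inner ℝ (pflux p (G x)) (H x) : ℝ) ∂μ) 0 := by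
  have hp0 : 0 < p := by linarith
  have hbint : Integrable (fun x => p * (‖G x‖ + ‖H x‖) ^ p) μ := by
    have h1 : MemLp (fun x => ‖G x‖ + ‖H x‖) (ENNReal.ofReal p) μ := hG.norm.add hH.norm
    have h2 := integrable_rpow_norm hp h1
    refine (h2.const_mul p).congr (ae_of_all _ fun x => ?_)
    simp only
    rw [Real.norm_eq_abs, abs_of_nonneg (by positivity)]
  have hmem : ∀ t : ℝ, MemLp (fun x => G x + t • H x) (ENNReal.ofReal p) μ := fun t =>
    hG.add (hH.const_smul t)
  have h := hasDerivAt_integral_of_dominated_loc_of_deriv_le (μ := μ) (𝕜 := ℝ)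
    (F := fun (t : ℝ) x => ‖G x + t • H x‖ ^ p)
    (F' := fun (t : ℝ) x => p * (inner ℝ (pflux p (G x + t • H x)) (H x) : ℝ))
    (x₀ := (0 : ℝ)) (s := Metric.ball 0 1) (bound := fun x => p * (‖G x‖ + ‖H x‖) ^ p)
    (Metric.ball_mem_nhds _ one_pos) ?_ ?_ ?_ ?_ hbint ?_
  · have h2 := h.2
    simp only [zero_smul, add_zero] at h2
    exact h2
  · refine Eventually.of_forall fun t => ?_
    exact ((hmem t).1.norm.aemeasurable.pow_const p).aestronglyMeasurable
  · exact integrable_rpow_norm hp (hmem 0)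
  · exact ((pflux_memLp hp (hmem 0)).1.inner hH.1).const_mul p
  · refine ae_of_all _ fun x t ht => ?_
    rw [norm_mul, Real.norm_eq_abs, abs_of_pos hp0]
    apply mul_le_mul_of_nonneg_left _ hp0.le
    have h1 : ‖G x + t • H x‖ ≤ ‖G x‖ + ‖H x‖ := by
      refine (norm_add_le _ _).trans ?_
      rw [norm_smul]
      rw [mem_ball_zero_iff] at ht
      have := mul_le_mul_of_nonneg_right ht.le (norm_nonneg (H x))
      rw [one_mul] at this
      linarith
    have h2 := norm_inner_le_norm (𝕜 := ℝ) (pflux p (G x + t • H x)) (H x)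
    rw [norm_pflux hp] at h2
    refine h2.trans ?_
    have h3 : ‖G x + t • H x‖ ^ (p - 1) ≤ (‖G x‖ + ‖H x‖) ^ (p - 1) :=
      Real.rpow_le_rpow (norm_nonneg _) h1 (by linarith)
    have h4 : ‖H x‖ ≤ ‖G x‖ + ‖H x‖ := by linarith [norm_nonneg (G x)]
    have h5 : (‖G x‖ + ‖H x‖) ^ p = (‖G x‖ + ‖H x‖) ^ (p - 1) * (‖G x‖ + ‖H x‖) := by
      rcases (by positivity : 0 ≤ ‖G x‖ + ‖H x‖).eq_or_lt with h | h
      · rw [← h, Real.zero_rpow hp0.ne', mul_zero]
      · conv_lhs => rw [show p = (p - 1) + 1 by ring, Real.rpow_add h, Real.rpow_one]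
    rw [h5]
    exact mul_le_mul h3 h4 (norm_nonneg _) (by positivity)
  · refine ae_of_all _ fun x t _ => ?_
    have h1 := hasFDerivAt_norm_rpow (G x + t • H x) hp
    have h2 : HasDerivAt (fun t : ℝ => G x + t • H x) (H x) t := by
      have := ((hasDerivAt_id t).smul_const (H x)).const_add (G x)
      simpa using this
    have h3 := h1.comp_hasDerivAt t h2
    have h4 : ((p * ‖G x + t • H x‖ ^ (p - 2)) • innerSL ℝ (G x + t • H x)) (H x) =
        p * (inner ℝ (pflux p (G x + t • H x)) (H x) : ℝ) := by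
      unfold pflux
      rw [real_inner_smul_left, smul_apply, innerSL_apply_apply, smul_eq_mul]
      ring
    rw [h4] at h3
    exact h3

end general

variable {N : ℕ} {Ω : Set (Rn N)}

/-- Existence of weak solutions of the Dirichlet problem for the `p`-Laplacian. -/
theorem existence (hN : 1 ≤ N) (hΩ : MeasurableSet Ω) (hb : Bornology.IsBounded Ω) {p : ℝ}
    (hp : 1 < p) {F : Rn N → ℝ}
    (hF : MemLp F (ENNReal.ofReal (p / (p - 1))) (volume.restrict Ω)) :
    ∃ u, IsDirichletSolution Ω p F u := by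
  have hp0 : 0 < p := by linarith
  set P := ENNReal.ofReal p with hP
  set μ := volume.restrict Ω with hμ
  set q := p / (p - 1) with hq
  have hq1 : 1 < q := by
    rw [hq, lt_div_iff₀ (by linarith)]; linarith
  obtain ⟨C, hC, hpoin⟩ := poincare hN hb hp.le
  -- energy
  set A : (Rn N → ℝ) → ℝ := fun φ => ∫ x, ‖∇ φ x‖ ^ p ∂μ with hA
  set B : (Rn N → ℝ) → ℝ := fun φ => ∫ x, (inner ℝ (F x) (φ x) : ℝ) ∂μ with hB
  set J : (Rn N → ℝ) → ℝ := fun φ => (1 / p) * A φ - B φ with hJ
  have hAnn : ∀ φ, 0 ≤ A φ := fun φ => integral_nonneg fun x => by positivity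
  have hBadd : ∀ φ ψ, IsTest Ω φ → IsTest Ω ψ → B (φ + ψ) = B φ + B ψ := by
    intro φ ψ h h'
    simp only [hB]
    rw [← integral_add (integrable_inner_of_conj hp hF (h.memLp P))
      (integrable_inner_of_conj hp hF (h'.memLp P))]
    apply integral_congr_ae (ae_of_all _ fun x => ?_)
    exact inner_add_right _ _ _
  have hBsmul : ∀ (c : ℝ) φ, B (c • φ) = c * B φ := by
    intro c φ
    simp only [hB]
    rw [← integral_const_mul]
    apply integral_congr_ae (ae_of_all _ fun x => ?_)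
    simp only [Pi.smul_apply]
    rw [real_inner_smul_right]
  -- lower bound
  obtain ⟨C2, hC2⟩ : ∃ C2 : ℝ, ∀ φ, IsTest Ω φ → B φ ≤ 1 / (2 * p) * A φ + C2 := by
    set t : ℝ := (1 / (2 * C)) ^ (1 / p) with ht
    have ht0 : 0 < t := by positivity
    have htp : t ^ p = 1 / (2 * C) := by
      rw [ht, ← Real.rpow_mul (by positivity), one_div_mul_cancel hp0.ne', Real.rpow_one]
    refine ⟨∫ x, (t⁻¹ ^ q / q) * ‖F x‖ ^ q ∂μ, fun φ h => ?_⟩
    have i1 : Integrable (fun x => (t⁻¹ ^ q / q) * ‖F x‖ ^ q) μ :=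
      (integrable_rpow_norm hq1 hF).const_mul _
    have i2 : Integrable (fun x => (t ^ p / p) * ‖φ x‖ ^ p) μ :=
      (integrable_rpow_norm hp (h.memLp P)).const_mul _
    have i12 : Integrable (fun x => (t⁻¹ ^ q / q) * ‖F x‖ ^ q + (t ^ p / p) * ‖φ x‖ ^ p) μ :=
      i1.add i2
    have h1 : B φ ≤ ∫ x, ((t⁻¹ ^ q / q) * ‖F x‖ ^ q + (t ^ p / p) * ‖φ x‖ ^ p) ∂μ := by
      apply integral_mono (integrable_inner_of_conj hp hF (h.memLp P)) i12
      intro x
      simp only
      have y1 := Real.young_inequality_of_nonneg (a := t⁻¹ * ‖F x‖) (b := t * ‖φ x‖)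
        (by positivity) (by positivity) (conj_exp hp).symm
      have y2 : t⁻¹ * ‖F x‖ * (t * ‖φ x‖) = ‖F x‖ * ‖φ x‖ := by
        field_simp
      rw [y2, Real.mul_rpow (by positivity) (by positivity),
        Real.mul_rpow (by positivity) (by positivity)] at y1
      refine (real_inner_le_norm _ _).trans (y1.trans (le_of_eq ?_))
      rw [← hq]
      ring
    rw [integral_add i1 i2, integral_const_mul (t ^ p / p)] at h1
    have h2 := hpoin φ h
    have h3 : t ^ p / p * ∫ x, ‖φ x‖ ^ p ∂μ ≤ 1 / (2 * p) * A φ := by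
      have h4 : t ^ p / p * ∫ x, ‖φ x‖ ^ p ∂μ ≤ t ^ p / p * (C * A φ) :=
        mul_le_mul_of_nonneg_left h2 (by positivity)
      have h5 : t ^ p / p * (C * A φ) = 1 / (2 * p) * A φ := by
        rw [htp]; field_simp
      linarith
    linarith
  have hJlow : ∀ φ, IsTest Ω φ → 1 / (2 * p) * A φ - C2 ≤ J φ := by
    intro φ h
    have h1 := hC2 φ h
    have h2 : 1 / p * A φ = 1 / (2 * p) * A φ + 1 / (2 * p) * A φ := by
      field_simp; ring
    simp only [hJ]
    rw [h2]
    linarith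
  -- infimum
  set S : Set ℝ := {r | ∃ φ, IsTest Ω φ ∧ J φ = r} with hS
  have hSne : S.Nonempty := ⟨J 0, 0, IsTest.zero, rfl⟩
  have hSb : BddBelow S := by
    refine ⟨-C2, ?_⟩
    rintro r ⟨φ, h, rfl⟩
    have := hJlow φ h
    have h2 : 0 ≤ 1 / (2 * p) * A φ := mul_nonneg (by positivity) (hAnn φ)
    linarith
  set m := sInf S with hm
  have hmle : ∀ φ, IsTest Ω φ → m ≤ J φ := fun φ h => csInf_le hSb ⟨φ, h, rfl⟩
  obtain ⟨r, hranti, hrlim, hrS⟩ := exists_seq_tendsto_sInf hSne hSb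
  choose φ hφ hφJ using hrS
  have hJlim : Tendsto (fun k => J (φ k)) atTop (𝓝 m) := by
    refine hrlim.congr fun k => (hφJ k).symm
  -- bound for the energies
  set BB : ℝ := 2 * p * (J (φ 0) + C2) with hBB
  have hAb : ∀ k, A (φ k) ≤ BB := by
    intro k
    have h1 := hJlow _ (hφ k)
    have h2 : J (φ k) ≤ J (φ 0) := by
      rw [hφJ, hφJ]; exact hranti (Nat.zero_le k)
    have h3 : 1 / (2 * p) * A (φ k) ≤ J (φ 0) + C2 := by linarith
    have h4 : A (φ k) = 2 * p * (1 / (2 * p) * A (φ k)) := by field_simp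
    rw [h4, hBB]
    exact mul_le_mul_of_nonneg_left h3 (by positivity)
  have hBB0 : 0 ≤ BB := (hAnn _).trans (hAb 0)
  -- Cauchy property
  have hdefect : ∀ k l, ∫ x, defect p (∇ (φ k) x) (∇ (φ l) x) ∂μ ≤
      p * ((J (φ k) + J (φ l)) / 2 - m) := by
    intro k l
    have hmid : IsTest Ω ((1 / 2 : ℝ) • (φ k + φ l)) := ((hφ k).add (hφ l)).smul _
    have i1 := integrable_rpow_norm hp ((hφ k).memLp_gradient P)
    have i2 := integrable_rpow_norm hp ((hφ l).memLp_gradient P)
    have i3 := integrable_rpow_norm hp (hmid.memLp_gradient P)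
    have e1 : ∫ x, defect p (∇ (φ k) x) (∇ (φ l) x) ∂μ =
        (A (φ k) + A (φ l)) / 2 - A ((1 / 2 : ℝ) • (φ k + φ l)) := by
      simp only [hA]
      have i12 : Integrable (fun x => (‖∇ (φ k) x‖ ^ p + ‖∇ (φ l) x‖ ^ p) / 2) μ :=
        (i1.add i2).div_const 2
      rw [← integral_add i1 i2, ← integral_div, ← integral_sub i12 i3]
      apply integral_congr_ae (ae_of_all _ fun x => ?_)
      simp only [defect]
      rw [((hφ k).add (hφ l)).gradient_smul, (hφ k).gradient_add (hφ l)]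
      rfl
    have h1 := hmle _ hmid
    have e2 : B ((1 / 2 : ℝ) • (φ k + φ l)) = 1 / 2 * (B (φ k) + B (φ l)) := by
      rw [hBsmul, hBadd _ _ (hφ k) (hφ l)]
    have h2 : m ≤ 1 / p * A ((1 / 2 : ℝ) • (φ k + φ l)) - 1 / 2 * (B (φ k) + B (φ l)) := by
      have : J ((1 / 2 : ℝ) • (φ k + φ l)) = 1 / p * A ((1 / 2 : ℝ) • (φ k + φ l)) -
          1 / 2 * (B (φ k) + B (φ l)) := by
        simp only [hJ]; rw [e2]
      rw [← this]; exact h1
    rw [e1]
    have h3 : p * m ≤ p * (1 / p * A ((1 / 2 : ℝ) • (φ k + φ l)) -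
        1 / 2 * (B (φ k) + B (φ l))) := mul_le_mul_of_nonneg_left h2 hp0.le
    have h4 : p * (1 / p * A ((1 / 2 : ℝ) • (φ k + φ l)) - 1 / 2 * (B (φ k) + B (φ l))) =
        A ((1 / 2 : ℝ) • (φ k + φ l)) - p * (1 / 2 * (B (φ k) + B (φ l))) := by
      field_simp
    rw [h4] at h3
    have h5 : p * ((J (φ k) + J (φ l)) / 2 - m) =
        (A (φ k) + A (φ l)) / 2 - p * (1 / 2 * (B (φ k) + B (φ l))) - p * m := by
      simp only [hJ]
      field_simp
      ring
    rw [h5]
    linarith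
  have hD : Tendsto (fun n : ℕ × ℕ => ∫ x, ‖(∇ (φ n.1) - ∇ (φ n.2)) x‖ ^ p ∂μ) atTop (𝓝 0) := by
    rw [Metric.tendsto_atTop]
    intro ε hε
    set ε' : ℝ := ε / (4 * (BB + 1)) with hε'
    have hε'0 : 0 < ε' := by positivity
    obtain ⟨K, hK, hUC⟩ := uniform_convexity (V := Rn N) hp hε'0
    have hJ2 : Tendsto (fun k => K * (p * (J (φ k) - m))) atTop (𝓝 0) := by
      have := ((hJlim.sub_const m).const_mul p).const_mul K
      simpa using this
    rw [Metric.tendsto_atTop] at hJ2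
    obtain ⟨k0, hk0⟩ := hJ2 (ε / 4) (by positivity)
    refine ⟨(k0, k0), fun n hn => ?_⟩
    have i1 := integrable_rpow_norm hp ((hφ n.1).memLp_gradient P)
    have i2 := integrable_rpow_norm hp ((hφ n.2).memLp_gradient P)
    have i4 : Integrable (fun x => defect p (∇ (φ n.1) x) (∇ (φ n.2) x)) μ := by
      have hmid : IsTest Ω ((1 / 2 : ℝ) • (φ n.1 + φ n.2)) := ((hφ n.1).add (hφ n.2)).smul _
      have i3 := integrable_rpow_norm hp (hmid.memLp_gradient P)
      refine (((i1.add i2).div_const 2).sub i3).congr (ae_of_all _ fun x => ?_)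
      simp only [defect, Pi.sub_apply, Pi.add_apply]
      rw [((hφ n.1).add (hφ n.2)).gradient_smul, (hφ n.1).gradient_add (hφ n.2)]
      rfl
    have h1 : ∫ x, ‖(∇ (φ n.1) - ∇ (φ n.2)) x‖ ^ p ∂μ ≤
        ∫ x, (ε' * (‖∇ (φ n.1) x‖ ^ p + ‖∇ (φ n.2) x‖ ^ p) +
          K * defect p (∇ (φ n.1) x) (∇ (φ n.2) x)) ∂μ := by
      apply integral_mono
      · exact integrable_rpow_norm hp (((hφ n.1).memLp_gradient P).sub ((hφ n.2).memLp_gradient P))
      · exact ((i1.add i2).const_mul _).add (i4.const_mul _)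
      · intro x
        exact hUC _ _
    have i12 : Integrable (fun x => ε' * (‖∇ (φ n.1) x‖ ^ p + ‖∇ (φ n.2) x‖ ^ p)) μ :=
      (i1.add i2).const_mul _
    rw [integral_add i12 (i4.const_mul _), integral_const_mul,
      integral_const_mul, integral_add i1 i2] at h1
    have h2 := hdefect n.1 n.2
    have h3 := hAb n.1
    have h4 := hAb n.2
    have h5 := hk0 n.1 hn.1
    have h6 := hk0 n.2 hn.2
    rw [Real.dist_eq, sub_zero] at h5 h6
    have h5' := (abs_lt.mp h5).2
    have h6' := (abs_lt.mp h6).2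
    rw [Real.dist_eq, sub_zero, abs_of_nonneg (integral_nonneg fun x => by positivity)]
    have h7 : K * ∫ x, defect p (∇ (φ n.1) x) (∇ (φ n.2) x) ∂μ ≤
        K * (p * ((J (φ n.1) + J (φ n.2)) / 2 - m)) := mul_le_mul_of_nonneg_left h2 hK.le
    have h8 : ε' * (A (φ n.1) + A (φ n.2)) ≤ ε' * (BB + BB) :=
      mul_le_mul_of_nonneg_left (by linarith) hε'0.le
    have h9 : ε' * (BB + BB) ≤ ε / 2 := by
      rw [hε', div_mul_eq_mul_div, div_le_iff₀ (by positivity)]
      nlinarith
    have h10 : K * (p * ((J (φ n.1) + J (φ n.2)) / 2 - m)) =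
        (K * (p * (J (φ n.1) - m)) + K * (p * (J (φ n.2) - m))) / 2 := by ring
    calc ∫ x, ‖(∇ (φ n.1) - ∇ (φ n.2)) x‖ ^ p ∂μ ≤ _ := h1
      _ ≤ ε / 2 + (ε / 4 + ε / 4) / 2 := by
          rw [h10] at h7
          have h8' : ε' * (∫ x, ‖∇ (φ n.1) x‖ ^ p ∂μ + ∫ x, ‖∇ (φ n.2) x‖ ^ p ∂μ) ≤ ε / 2 :=
            h8.trans h9
          linarith
      _ < ε := by linarith
  obtain ⟨G, hG, hGlim⟩ := exists_lim hp (fun k => (hφ k).memLp_gradient P) hD
  have hD2 : Tendsto (fun n : ℕ × ℕ => ∫ x, ‖(φ n.1 - φ n.2) x‖ ^ p ∂μ) atTop (𝓝 0) := by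
    have h1 := hD.const_mul C
    rw [mul_zero] at h1
    refine tendsto_of_tendsto_of_tendsto_of_le_of_le tendsto_const_nhds h1
      (fun k => integral_nonneg fun x => by positivity) (fun n => ?_)
    have := hpoin _ ((hφ n.1).sub (hφ n.2))
    rw [(hφ n.1).gradient_sub (hφ n.2)] at this
    exact this
  obtain ⟨u, hu, hulim⟩ := exists_lim hp (fun k => (hφ k).memLp P) hD2
  refine ⟨u, G, ⟨hu, hG, ?_, φ, hφ, hulim, hGlim⟩, ?_⟩
  · -- weak gradient
    intro ψ hψ
    have hfin : IsFiniteMeasure μ := ⟨by rw [Measure.restrict_apply_univ]; exact hb.measure_lt_top⟩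
    have i1 : Integrable (fun x => u x • ∇ ψ x) μ := by
      obtain ⟨M, hM⟩ := hψ.continuous_gradient.bounded_above_of_compact_support
        hψ.hasCompactSupport_gradient
      have hu1 : Integrable u μ := hu.integrable (by
        rw [← ENNReal.ofReal_one]; exact ENNReal.ofReal_le_ofReal hp.le)
      refine (hu1.norm.mul_const M).mono' (hu.1.smul (hψ.memLp_gradient P).1)
        (ae_of_all _ fun x => ?_)
      rw [norm_smul]
      exact mul_le_mul_of_nonneg_left (hM x) (norm_nonneg _)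
    have i2 : Integrable (fun x => ψ x • G x) μ := by
      obtain ⟨M, hM⟩ := hψ.continuous.bounded_above_of_compact_support hψ.2.1
      have hG1 : Integrable G μ := hG.integrable (by
        rw [← ENNReal.ofReal_one]; exact ENNReal.ofReal_le_ofReal hp.le)
      refine (hG1.norm.const_mul M).mono' ((hψ.memLp P).1.smul hG.1)
        (ae_of_all _ fun x => ?_)
      rw [norm_smul]
      exact mul_le_mul_of_nonneg_right (hM x) (norm_nonneg _)
    apply ext_inner_left ℝ
    intro v
    rw [inner_neg_right, ← integral_inner i1, ← integral_inner i2]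
    have l1 := pairing_tendsto hp (f := fun x => (inner ℝ v (∇ ψ x) : ℝ))
      ((hψ.memLp_gradient (ENNReal.ofReal q)).const_inner v) (fun k => (hφ k).memLp P) hu hulim
    have l2 := pairing_tendsto hp (f := fun x => ψ x • v)
      (((hψ.continuous.smul continuous_const).memLp_of_hasCompactSupport
        (hψ.2.1.smul_right)).restrict Ω)
      (fun k => (hφ k).memLp_gradient P) hG hGlim
    have e1 : ∀ k, ∫ x, (inner ℝ (inner ℝ v (∇ ψ x) : ℝ) (φ k x) : ℝ) ∂μ =
        - ∫ x, (inner ℝ (ψ x • v) (∇ (φ k) x) : ℝ) ∂μ := by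
      intro k
      have h1 := (hφ k).integral_by_parts hΩ hψ
      have j1 : Integrable (fun x => φ k x • ∇ ψ x) μ :=
        (((hφ k).continuous.smul hψ.continuous_gradient).integrable_of_hasCompactSupport
          ((hφ k).2.1.smul_right)).restrict
      have j2 : Integrable (fun x => ψ x • ∇ (φ k) x) μ :=
        ((hψ.continuous.smul (hφ k).continuous_gradient).integrable_of_hasCompactSupport
          (hψ.2.1.smul_right)).restrict
      have h2 := congrArg (fun z => (inner ℝ v z : ℝ)) h1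
      simp only [inner_neg_right] at h2
      rw [← integral_inner j1, ← integral_inner j2] at h2
      refine Eq.trans ?_ (h2.trans ?_)
      · apply integral_congr_ae (ae_of_all _ fun x => ?_)
        simp only [real_inner_smul_right]
        simp
      · congr 1
        apply integral_congr_ae (ae_of_all _ fun x => ?_)
        simp only [real_inner_smul_right, real_inner_smul_left]
    have l1' := l1.congr e1
    have h3 := tendsto_nhds_unique l1' l2.neg
    refine Eq.trans ?_ (h3.trans ?_)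
    · apply integral_congr_ae (ae_of_all _ fun x => ?_)
      simp only [real_inner_smul_right]
      simp
    · congr 1
      apply integral_congr_ae (ae_of_all _ fun x => ?_)
      simp only [real_inner_smul_right, real_inner_smul_left]
  · -- the Euler-Lagrange equation
    intro ψ hψ
    set H := ∇ ψ with hH
    have hHm : MemLp H P μ := hψ.memLp_gradient P
    set Bu : ℝ := ∫ x, (inner ℝ (F x) (u x) : ℝ) ∂μ with hBu
    set g : ℝ → ℝ := fun t => (1 / p) * (∫ x, ‖G x + t • H x‖ ^ p ∂μ) - (Bu + t * B ψ) with hg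
    have hBlim : Tendsto (fun k => B (φ k)) atTop (𝓝 Bu) :=
      pairing_tendsto hp hF (fun k => (hφ k).memLp P) hu hulim
    have hlim : ∀ t : ℝ, Tendsto (fun k => J (φ k + t • ψ)) atTop (𝓝 (g t)) := by
      intro t
      have h1 : Tendsto (fun k => ∫ x, ‖(∇ (φ k) + t • H) x‖ ^ p ∂μ) atTop
          (𝓝 (∫ x, ‖(G + t • H) x‖ ^ p ∂μ)) := by
        apply norm_tendsto hp (fun k => ((hφ k).memLp_gradient P).add (hHm.const_smul t))
          (hG.add (hHm.const_smul t))
        refine hGlim.congr fun k => ?_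
        congr 1
        abel
      have h2 := (h1.const_mul (1 / p)).sub (hBlim.add_const (t * B ψ))
      refine h2.congr fun k => ?_
      simp only [hJ, hA]
      rw [hBadd _ _ (hφ k) (hψ.smul t), hBsmul, (hφ k).gradient_add (hψ.smul t),
        hψ.gradient_smul t]
    have hge : ∀ t, m ≤ g t := fun t =>
      ge_of_tendsto' (hlim t) fun k => hmle _ ((hφ k).add (hψ.smul t))
    have hg0 : g 0 = m := by
      have h1 := hlim 0
      simp only [zero_smul, add_zero] at h1
      exact tendsto_nhds_unique h1 hJlim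
    have hmin : IsLocalMin g 0 := by
      refine Eventually.of_forall fun t => ?_
      rw [hg0]; exact hge t
    have hder : HasDerivAt g ((1 / p) * (∫ x, p * (inner ℝ (pflux p (G x)) (H x) : ℝ) ∂μ) -
        B ψ) 0 := by
      have h1 := (hasDerivAt_energy hp hG hHm).const_mul (1 / p)
      have h2 : HasDerivAt (fun t : ℝ => Bu + t * B ψ) (B ψ) 0 := by
        have := ((hasDerivAt_id (0 : ℝ)).mul_const (B ψ)).const_add Bu
        simpa using this
      exact h1.sub h2
    have h0 := hmin.hasDerivAt_eq_zero hder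
    rw [integral_const_mul, ← mul_assoc, one_div_mul_cancel hp0.ne', one_mul, sub_eq_zero] at h0
    refine Eq.trans ?_ (h0.trans ?_)
    · apply integral_congr_ae (ae_of_all _ fun x => ?_)
      simp only [pflux]
      rw [real_inner_smul_left]
    · simp only [hB]
      apply integral_congr_ae (ae_of_all _ fun x => ?_)
      simp [mul_comm]

end Pool.Agent.Lib_MP_83d99e_an
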