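import Pool.Agent.Lib_MP_83d99e_an.Comparison
import Pool.Agent.Lib_MP_83d99e_an.Existence

set_option autoImplicit false

open MeasureTheory Filter Topology
open scoped ContDiff ENNReal Gradient

namespace Pool.Agent.Lib_MP_83d99e_an

variable {N : ℕ} {Ω : Set (Rn N)}

/-- Scaling of solutions. -/
theorem IsDirichletSolution.scale {p : ℝ} {F u : Rn N → ℝ}
    (h : IsDirichletSolution Ω p F u) {s : ℝ} (hs : 0 < s) :
    IsDirichletSolution Ω p (s ^ (p - 1) • F) (s • u) := by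
  obtain ⟨G, ⟨hu, hG, hw, φ, hφ, hφu, hφG⟩, hweq⟩ := h
  refine ⟨s • G, ⟨hu.const_smul s, hG.const_smul s, ?_, fun k => s • φ k,
    fun k => (hφ k).smul s, ?_, ?_⟩, ?_⟩
  · intro ψ hψ
    have h1 := hw ψ hψ
    have e1 : ∀ x, (s • u) x • ∇ ψ x = s • (u x • ∇ ψ x) := by
      intro x; rw [Pi.smul_apply, smul_assoc]
    have e2 : ∀ x, ψ x • (s • G) x = s • (ψ x • G x) := by
      intro x; rw [Pi.smul_apply, smul_comm]
    simp only [e1, e2]
    rw [integral_smul, integral_smul, h1, smul_neg]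
  · have e1 : ∀ k, s • φ k - s • u = s • (φ k - u) := fun k => by rw [smul_sub]
    simp only [e1, eLpNorm_const_smul]
    have := ENNReal.Tendsto.const_mul (a := ‖s‖ₑ) hφu (Or.inr enorm_ne_top)
    rwa [mul_zero] at this
  · have e1 : ∀ k, ∇ (s • φ k) - s • G = s • (∇ (φ k) - G) := fun k => by
      rw [(hφ k).gradient_smul, smul_sub]
    simp only [e1, eLpNorm_const_smul]
    have := ENNReal.Tendsto.const_mul (a := ‖s‖ₑ) hφG (Or.inr enorm_ne_top)
    rwa [mul_zero] at this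
  · intro ψ hψ
    have h1 := hweq ψ hψ
    have e1 : ∀ x, ‖(s • G) x‖ ^ (p - 2) * (inner ℝ ((s • G) x) (∇ ψ x) : ℝ) =
        s ^ (p - 1) * (‖G x‖ ^ (p - 2) * (inner ℝ (G x) (∇ ψ x) : ℝ)) := by
      intro x
      rw [Pi.smul_apply, norm_smul, real_inner_smul_left, Real.norm_eq_abs, abs_of_pos hs,
        Real.mul_rpow hs.le (norm_nonneg _)]
      have : s ^ (p - 1) = s ^ (p - 2) * s := by
        conv_lhs => rw [show p - 1 = (p - 2) + 1 by ring, Real.rpow_add hs, Real.rpow_one]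
      rw [this]
      ring
    have e2 : ∀ x, (s ^ (p - 1) • F) x * ψ x = s ^ (p - 1) * (F x * ψ x) := by
      intro x; rw [Pi.smul_apply, smul_eq_mul, mul_assoc]
    simp only [e1, e2]
    rw [integral_const_mul, integral_const_mul, h1]

/-- A function dominating positive multiples of countably many `L^q` functions. -/
theorem exists_dominating {α : Type*} {m : MeasurableSpace α} {μ : Measure α} {q : ℝ≥0∞}
    (hq : 1 ≤ q) (F : ℕ → α → ℝ) (hF : ∀ k, MemLp (F k) q μ) :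
    ∃ (c : ℕ → ℝ) (g : α → ℝ), (∀ k, 0 < c k) ∧ MemLp g q μ ∧
      ∀ k, ∀ᵐ x ∂μ, c k * F k x ≤ g x := by
  have : Fact (1 ≤ q) := ⟨hq⟩
  set f : ℕ → Lp ℝ q μ := fun k => (hF k).norm.toLp (fun x => ‖F k x‖) with hf
  set c : ℕ → ℝ := fun k => (1 / 2) ^ k / (1 + ‖f k‖) with hc
  have hc0 : ∀ k, 0 < c k := fun k => by
    simp only [hc]; positivity
  have hcnn : ∀ k, 0 ≤ c k • f k := by
    intro k
    rw [← Lp.coeFn_nonneg]
    filter_upwards [Lp.coeFn_smul (c k) (f k), (hF k).norm.coeFn_toLp] with x hx hx3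
    rw [hx, Pi.smul_apply, smul_eq_mul]
    simp only [hf]
    rw [hx3]
    exact mul_nonneg (hc0 k).le (norm_nonneg _)
  have hsum : Summable (fun k => c k • f k) := by
    apply Summable.of_norm_bounded (g := fun k : ℕ => (1 / 2 : ℝ) ^ k)
    · exact summable_geometric_of_lt_one (by norm_num) (by norm_num)
    · intro k
      rw [norm_smul, Real.norm_eq_abs, abs_of_pos (hc0 k)]
      simp only [hc]
      rw [div_mul_eq_mul_div, div_le_iff₀ (by positivity)]
      apply mul_le_mul_of_nonneg_left _ (by positivity)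
      linarith
  refine ⟨c, ⇑(∑' k, c k • f k), hc0, Lp.memLp _, fun k => ?_⟩
  have h1 : c k • f k ≤ ∑' k, c k • f k :=
    hsum.le_tsum k (fun j _ => hcnn j)
  rw [← Lp.coeFn_le] at h1
  filter_upwards [h1, Lp.coeFn_smul (c k) (f k), (hF k).norm.coeFn_toLp] with x hx1 hx2 hx3
  refine le_trans ?_ hx1
  rw [hx2, Pi.smul_apply, smul_eq_mul]
  simp only [hf]
  rw [hx3]
  exact mul_le_mul_of_nonneg_left (le_abs_self _) (hc0 k).le

theorem main (hN : 1 ≤ N) (hΩ : IsOpen Ω) (hb : Bornology.IsBounded Ω) {p : ℝ} (hp : 1 < p) :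
    ∃ v ∈ solutionSet Ω p, dimH (Sing Ω v) = singDim Ω (solutionSet Ω p) := by
  have hq1 : 1 < p / (p - 1) := by
    rw [lt_div_iff₀ (by linarith)]; linarith
  have hQ1 : 1 ≤ ENNReal.ofReal (p / (p - 1)) := by
    rw [← ENNReal.ofReal_one]; exact ENNReal.ofReal_le_ofReal hq1.le
  set S : Set ℝ≥0∞ := {r | ∃ u ∈ solutionSet Ω p, dimH (Sing Ω u) = r} with hS
  have hne : S.Nonempty := by
    obtain ⟨u, hu⟩ := existence hN hΩ.measurableSet hb hp
      (F := 0) (MemLp.zero (ε := ℝ))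
    exact ⟨_, u, ⟨0, MemLp.zero, hu⟩, rfl⟩
  obtain ⟨r, hr, hrlim, hrS⟩ := exists_seq_tendsto_sSup hne (OrderTop.bddAbove S)
  choose u huX hur using hrS
  choose F hF hu using huX
  obtain ⟨c, g, hc, hg, hcg⟩ := exists_dominating hQ1 F hF
  obtain ⟨v, hv⟩ := existence hN hΩ.measurableSet hb hp hg
  have hsub : ∀ k, Sing Ω (u k) ⊆ Sing Ω v := by
    intro k
    set s : ℝ := (c k) ^ (1 / (p - 1)) with hs
    have hs0 : 0 < s := Real.rpow_pos_of_pos (hc k) _
    have hsp : s ^ (p - 1) = c k := by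
      rw [hs, ← Real.rpow_mul (hc k).le, one_div_mul_cancel (by linarith), Real.rpow_one]
    have h1 := (hu k).scale hs0
    rw [hsp] at h1
    have h2 := comparison hN hb hp hg ((hF k).const_smul (c k)) hv h1 (by
      filter_upwards [hcg k] with x hx
      rw [Pi.smul_apply, smul_eq_mul]
      exact hx)
    rintro a ⟨ha, C, γ, ρ, hC, hγ, hρ, hball, hae⟩
    refine ⟨ha, s * C, γ, ρ, by positivity, hγ, hρ, hball, ?_⟩
    have h3 := ae_restrict_of_ae_restrict_of_subset hball h2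
    filter_upwards [hae, h3] with x hx1 hx2
    rw [Pi.smul_apply, smul_eq_mul] at hx2
    refine le_trans ?_ hx2
    rw [mul_assoc]
    exact mul_le_mul_of_nonneg_left hx1 hs0.le
  refine ⟨v, ⟨g, hg, hv⟩, le_antisymm ?_ ?_⟩
  · exact le_iSup₂ (f := fun u (_ : u ∈ solutionSet Ω p) => dimH (Sing Ω u)) v ⟨g, hg, hv⟩
  · have h1 : singDim Ω (solutionSet Ω p) ≤ sSup S := by
      apply iSup₂_le
      intro w hw
      exact le_sSup ⟨w, hw, rfl⟩
    refine h1.trans (le_of_tendsto' hrlim fun k => ?_)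
    rw [← hur k]
    exact dimH_mono (hsub k)

end Pool.Agent.Lib_MP_83d99e_an
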