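import Pool.Agent.Lib_MP_83d99e_an.Basic

set_option autoImplicit false

open MeasureTheory Filter Topology
open scoped ContDiff ENNReal Gradient

namespace Pool.Agent.Lib_MP_83d99e_an

variable {N : ℕ} {Ω : Set (Rn N)}

/-- Pointwise bound by a line integral of the gradient. -/
theorem IsTest.enorm_le_lintegral {R : ℝ} (hR : 0 < R) (hΩ : Ω ⊆ Metric.ball 0 R)
    {e : Rn N} (he : ‖e‖ = 1) {φ : Rn N → ℝ} (h : IsTest Ω φ) (x : Rn N) :
    ‖φ x‖ₑ ≤ ∫⁻ t in Set.Ioc 0 (2 * R), ‖∇ φ (x + t • e)‖ₑ := by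
  by_cases hx : x ∈ Ω
  · have hd : ∀ t : ℝ, HasDerivAt (fun t : ℝ => φ (x + t • e)) (inner ℝ (∇ φ (x + t • e)) e) t := by
      intro t
      have h1 : HasDerivAt (fun t : ℝ => x + t • e) e t := by
        have := ((hasDerivAt_id t).smul_const e).const_add x
        simpa using this
      have h2 := (h.hasGradientAt (x + t • e)).hasFDerivAt.comp_hasDerivAt t h1
      rw [InnerProductSpace.toDual_apply_apply] at h2
      exact h2
    have hcont : Continuous (fun t : ℝ => inner ℝ (∇ φ (x + t • e)) e) := by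
      have h1 : Continuous (fun t : ℝ => x + t • e) := by fun_prop
      exact (h.continuous_gradient.comp h1).inner continuous_const
    have hint := intervalIntegral.integral_eq_sub_of_hasDerivAt (a := 0) (b := 2 * R)
      (fun t _ => hd t) (hcont.intervalIntegrable _ _)
    have hend : φ (x + (2 * R) • e) = 0 := by
      apply h.eq_zero
      intro h'
      have h1 := hΩ h'
      have h2 := hΩ hx
      rw [mem_ball_zero_iff] at h1 h2
      have h3 : ‖(2 * R) • e‖ = 2 * R := by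
        rw [norm_smul, he, mul_one, Real.norm_eq_abs, abs_of_pos (by positivity)]
      have h4 : ‖(2 * R) • e‖ ≤ ‖x + (2 * R) • e‖ + ‖x‖ := by
        have : (2 * R) • e = (x + (2 * R) • e) - x := by abel
        calc ‖(2 * R) • e‖ = ‖(x + (2 * R) • e) - x‖ := by rw [← this]
          _ ≤ _ := norm_sub_le _ _
      linarith
    have hx0 : φ x = - ∫ t in (0:ℝ)..(2 * R), inner ℝ (∇ φ (x + t • e)) e := by
      rw [hint, hend]; simp
    rw [hx0, enorm_neg, intervalIntegral.integral_of_le (by positivity)]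
    refine (enorm_integral_le_lintegral_enorm _).trans ?_
    apply lintegral_mono
    intro t
    have h5 : ‖(inner ℝ (∇ φ (x + t • e)) e : ℝ)‖ ≤ ‖∇ φ (x + t • e)‖ := by
      have := norm_inner_le_norm (𝕜 := ℝ) (∇ φ (x + t • e)) e
      rwa [he, mul_one] at this
    exact enorm_le_iff_norm_le.mpr h5
  · rw [h.eq_zero hx]; simp

theorem IsTest.poincare_lintegral {R : ℝ} (hR : 0 < R) (hΩ : Ω ⊆ Metric.ball 0 R)
    {e : Rn N} (he : ‖e‖ = 1) {p : ℝ} (hp : 1 ≤ p) {φ : Rn N → ℝ} (h : IsTest Ω φ) :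
    ∫⁻ x, ‖φ x‖ₑ ^ p ≤ ENNReal.ofReal (2 * R) ^ p * ∫⁻ x, ‖∇ φ x‖ₑ ^ p := by
  have hp0 : 0 < p := by linarith
  have h1 : ∀ x, ‖φ x‖ₑ ^ p ≤ (∫⁻ t in Set.Ioc 0 (2 * R), ‖∇ φ (x + t • e)‖ₑ ^ p) *
      ENNReal.ofReal (2 * R) ^ (p - 1) := by
    intro x
    have hcont : Continuous (fun t : ℝ => ∇ φ (x + t • e)) := by
      have h1 : Continuous (fun t : ℝ => x + t • e) := by fun_prop
      exact h.continuous_gradient.comp h1
    have a1 := h.enorm_le_lintegral hR hΩ he x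
    have a2 := eLpNorm_le_eLpNorm_mul_rpow_measure_univ (p := 1) (q := ENNReal.ofReal p)
      (f := fun t : ℝ => ∇ φ (x + t • e)) (μ := volume.restrict (Set.Ioc 0 (2 * R)))
      (by rw [← ENNReal.ofReal_one]; exact ENNReal.ofReal_le_ofReal hp)
      hcont.aestronglyMeasurable
    rw [eLpNorm_one_eq_lintegral_enorm, eLpNorm_eq_lintegral_rpow_enorm_toReal
      (by simpa using hp0) ENNReal.ofReal_ne_top, ENNReal.toReal_ofReal hp0.le] at a2
    have hvol : (volume.restrict (Set.Ioc 0 (2 * R))) (Set.univ : Set ℝ) = ENNReal.ofReal (2 * R) := by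
      rw [Measure.restrict_apply_univ, Real.volume_Ioc, sub_zero]
    rw [hvol, ENNReal.toReal_one] at a2
    calc ‖φ x‖ₑ ^ p ≤ ((∫⁻ t in Set.Ioc 0 (2 * R), ‖∇ φ (x + t • e)‖ₑ ^ p) ^ (1 / p) *
          ENNReal.ofReal (2 * R) ^ (1 / 1 - 1 / p)) ^ p :=
          ENNReal.rpow_le_rpow (a1.trans a2) hp0.le
      _ = _ := by
          rw [ENNReal.mul_rpow_of_nonneg _ _ hp0.le, ← ENNReal.rpow_mul, ← ENNReal.rpow_mul,
            one_div, inv_mul_cancel₀ hp0.ne', ENNReal.rpow_one]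
          congr 2
          field_simp
  have hmeas : Measurable (Function.uncurry fun (x : Rn N) (t : ℝ) => ‖∇ φ (x + t • e)‖ₑ ^ p) := by
    have hc : Continuous (fun z : Rn N × ℝ => ∇ φ (z.1 + z.2 • e)) := by
      have : Continuous (fun z : Rn N × ℝ => z.1 + z.2 • e) := by fun_prop
      exact h.continuous_gradient.comp this
    exact (hc.enorm.measurable.pow_const p)
  calc ∫⁻ x, ‖φ x‖ₑ ^ p ≤ ∫⁻ x, (∫⁻ t in Set.Ioc 0 (2 * R), ‖∇ φ (x + t • e)‖ₑ ^ p) *
      ENNReal.ofReal (2 * R) ^ (p - 1) := lintegral_mono h1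
    _ = (∫⁻ x, ∫⁻ t in Set.Ioc 0 (2 * R), ‖∇ φ (x + t • e)‖ₑ ^ p) *
      ENNReal.ofReal (2 * R) ^ (p - 1) := by
        rw [lintegral_mul_const']
        exact ENNReal.rpow_ne_top_of_nonneg (by linarith) ENNReal.ofReal_ne_top
    _ = (∫⁻ t in Set.Ioc 0 (2 * R), ∫⁻ x, ‖∇ φ (x + t • e)‖ₑ ^ p) *
      ENNReal.ofReal (2 * R) ^ (p - 1) := by
        rw [lintegral_lintegral_swap hmeas.aemeasurable]
    _ = (∫⁻ t in Set.Ioc 0 (2 * R), ∫⁻ x, ‖∇ φ x‖ₑ ^ p) *
      ENNReal.ofReal (2 * R) ^ (p - 1) := by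
        congr 1
        apply lintegral_congr
        intro t
        exact lintegral_add_right_eq_self (fun y => ‖∇ φ y‖ₑ ^ p) (t • e)
    _ = _ := by
        rw [lintegral_const, Measure.restrict_apply_univ, Real.volume_Ioc, sub_zero]
        have : ENNReal.ofReal (2 * R) ^ p = ENNReal.ofReal (2 * R) * ENNReal.ofReal (2 * R) ^ (p - 1) := by
          have h2R : ENNReal.ofReal (2 * R) ≠ 0 := by
            simp [hR]
          conv_rhs => rw [← ENNReal.rpow_one (ENNReal.ofReal (2 * R)), ← ENNReal.rpow_mul,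
            one_mul, ← ENNReal.rpow_add _ _ h2R ENNReal.ofReal_ne_top]
          congr 1
          ring
        rw [this]
        ring

/-- Poincaré inequality for test functions on a bounded set. -/
theorem poincare (hN : 1 ≤ N) (hb : Bornology.IsBounded Ω) {p : ℝ} (hp : 1 ≤ p) :
    ∃ C : ℝ, 0 < C ∧ ∀ φ : Rn N → ℝ, IsTest Ω φ →
      ∫ x in Ω, ‖φ x‖ ^ p ≤ C * ∫ x in Ω, ‖∇ φ x‖ ^ p := by
  have hp0 : 0 < p := by linarith
  obtain ⟨R0, hR0⟩ := hb.subset_ball (0 : Rn N)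
  set R := max R0 1 with hR
  have hRpos : 0 < R := lt_of_lt_of_le one_pos (le_max_right _ _)
  have hΩ : Ω ⊆ Metric.ball 0 R := hR0.trans (Metric.ball_subset_ball (le_max_left _ _))
  set e : Rn N := EuclideanSpace.single (⟨0, hN⟩ : Fin N) (1 : ℝ) with he
  have he1 : ‖e‖ = 1 := by rw [he, EuclideanSpace.norm_single]; simp
  refine ⟨(2 * R) ^ p, by positivity, fun φ h => ?_⟩
  have h1 := h.poincare_lintegral hRpos hΩ he1 hp
  have e1 : ∫ x in Ω, ‖φ x‖ ^ p = ∫ x, ‖φ x‖ ^ p := by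
    apply setIntegral_eq_integral_of_forall_compl_eq_zero
    intro x hx
    rw [h.eq_zero hx, norm_zero, Real.zero_rpow hp0.ne']
  have e2 : ∫ x in Ω, ‖∇ φ x‖ ^ p = ∫ x, ‖∇ φ x‖ ^ p := by
    apply setIntegral_eq_integral_of_forall_compl_eq_zero
    intro x hx
    rw [h.gradient_eq_zero hx, norm_zero, Real.zero_rpow hp0.ne']
  have m1 : MemLp φ (ENNReal.ofReal p) volume :=
    h.continuous.memLp_of_hasCompactSupport h.2.1
  have m2 : MemLp (∇ φ) (ENNReal.ofReal p) volume :=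
    h.continuous_gradient.memLp_of_hasCompactSupport h.hasCompactSupport_gradient
  have hne : ENNReal.ofReal p ≠ 0 := by simp; linarith
  have i1 : Integrable (fun x => ‖φ x‖ ^ p) := by
    have := m1.integrable_norm_rpow hne ENNReal.ofReal_ne_top
    rwa [ENNReal.toReal_ofReal hp0.le] at this
  have i2 : Integrable (fun x => ‖∇ φ x‖ ^ p) := by
    have := m2.integrable_norm_rpow hne ENNReal.ofReal_ne_top
    rwa [ENNReal.toReal_ofReal hp0.le] at this
  have l1 : ∫⁻ x, ‖φ x‖ₑ ^ p = ENNReal.ofReal (∫ x, ‖φ x‖ ^ p) := by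
    rw [ofReal_integral_eq_lintegral_ofReal i1 (ae_of_all _ fun x => by positivity)]
    apply lintegral_congr
    intro x
    rw [← ENNReal.ofReal_rpow_of_nonneg (norm_nonneg _) hp0.le, ofReal_norm]
  have l2 : ∫⁻ x, ‖∇ φ x‖ₑ ^ p = ENNReal.ofReal (∫ x, ‖∇ φ x‖ ^ p) := by
    rw [ofReal_integral_eq_lintegral_ofReal i2 (ae_of_all _ fun x => by positivity)]
    apply lintegral_congr
    intro x
    rw [← ENNReal.ofReal_rpow_of_nonneg (norm_nonneg _) hp0.le, ofReal_norm]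
  rw [l1, l2, ENNReal.ofReal_rpow_of_nonneg (by positivity) hp0.le,
    ← ENNReal.ofReal_mul (by positivity)] at h1
  rw [e1, e2]
  have hnn : 0 ≤ (2 * R) ^ p * ∫ x, ‖∇ φ x‖ ^ p :=
    mul_nonneg (by positivity) (integral_nonneg fun x => by positivity)
  exact (ENNReal.ofReal_le_ofReal_iff hnn).mp h1

end Pool.Agent.Lib_MP_83d99e_an
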