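import Mathlib

set_option autoImplicit false

open Filter Topology

namespace Pool.Agent.Lib_MP_83d99e_an

variable {V : Type*} [NormedAddCommGroup V] [InnerProductSpace ℝ V]

/-- Convexity defect of `‖·‖^p`. -/
noncomputable def defect (p : ℝ) (a b : V) : ℝ :=
  (‖a‖ ^ p + ‖b‖ ^ p) / 2 - ‖(1 / 2 : ℝ) • (a + b)‖ ^ p

theorem norm_mid_le (a b : V) : ‖(1 / 2 : ℝ) • (a + b)‖ ≤ (‖a‖ + ‖b‖) / 2 := by
  rw [norm_smul]
  have := norm_add_le a b
  rw [Real.norm_eq_abs, abs_of_pos (by norm_num : (0:ℝ) < 1 / 2)]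
  linarith

theorem rpow_mid_le {p : ℝ} (hp : 1 < p) {s t : ℝ} (hs : 0 ≤ s) (ht : 0 ≤ t) :
    ((s + t) / 2) ^ p ≤ (s ^ p + t ^ p) / 2 := by
  have h0 := (convexOn_rpow hp.le).2
  have h := @h0 s hs t ht (1 / 2) (1 / 2) (by norm_num) (by norm_num) (by norm_num)
  simp only [smul_eq_mul] at h
  have e1 : (1 / 2 : ℝ) * s + 1 / 2 * t = (s + t) / 2 := by ring
  rw [e1] at h
  linarith

theorem rpow_mid_lt {p : ℝ} (hp : 1 < p) {s t : ℝ} (hs : 0 ≤ s) (ht : 0 ≤ t) (hst : s ≠ t) :
    ((s + t) / 2) ^ p < (s ^ p + t ^ p) / 2 := by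
  have h0 := (strictConvexOn_rpow hp).2
  have h := @h0 s hs t ht hst (1 / 2) (1 / 2) (by norm_num) (by norm_num) (by norm_num)
  simp only [smul_eq_mul] at h
  have e1 : (1 / 2 : ℝ) * s + 1 / 2 * t = (s + t) / 2 := by ring
  rw [e1] at h
  linarith

theorem defect_nonneg {p : ℝ} (hp : 1 < p) (a b : V) : 0 ≤ defect p a b := by
  have h1 := Real.rpow_le_rpow (norm_nonneg _) (norm_mid_le a b) (by linarith : 0 ≤ p)
  have h2 := rpow_mid_le hp (norm_nonneg a) (norm_nonneg b)
  unfold defect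
  linarith

theorem defect_pos {p : ℝ} (hp : 1 < p) {a b : V} (hab : a ≠ b) : 0 < defect p a b := by
  have h1 := Real.rpow_le_rpow (norm_nonneg _) (norm_mid_le a b) (by linarith : 0 ≤ p)
  by_cases hn : ‖a‖ = ‖b‖
  · -- strict convexity of the norm
    have h3 : ‖(1 / 2 : ℝ) • (a + b)‖ < ‖a‖ := by
      have hsq : ‖a + b‖ ^ 2 + ‖a - b‖ ^ 2 = 2 * (‖a‖ ^ 2 + ‖b‖ ^ 2) := by
        have := parallelogram_law_with_norm ℝ a b
        nlinarith [this]
      have hpos : 0 < ‖a - b‖ := norm_pos_iff.mpr (sub_ne_zero.mpr hab)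
      have h4 : ‖a + b‖ ^ 2 < (2 * ‖a‖) ^ 2 := by
        rw [← hn] at hsq
        nlinarith
      have h5 : ‖a + b‖ < 2 * ‖a‖ := by
        exact lt_of_pow_lt_pow_left₀ 2 (by positivity) h4
      rw [norm_smul, Real.norm_eq_abs, abs_of_pos (by norm_num : (0:ℝ) < 1 / 2)]
      linarith
    have h4 := Real.rpow_lt_rpow (norm_nonneg _) h3 (by linarith : 0 < p)
    unfold defect
    rw [← hn]
    linarith
  · have h2 := rpow_mid_lt hp (norm_nonneg a) (norm_nonneg b) hn
    unfold defect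
    linarith

theorem continuous_defect {p : ℝ} (hp : 1 < p) :
    Continuous (fun z : V × V => defect p z.1 z.2) := by
  unfold defect
  have hp0 : 0 ≤ p := by linarith
  refine Continuous.sub ?_ ?_
  · exact (((continuous_fst.norm).rpow_const (fun _ => Or.inr hp0)).add
      ((continuous_snd.norm).rpow_const (fun _ => Or.inr hp0))).div_const 2
  · exact ((continuous_const.smul (continuous_fst.add continuous_snd)).norm).rpow_const
      (fun _ => Or.inr hp0)

theorem defect_smul {p : ℝ} (c : ℝ) (hc : 0 ≤ c) (a b : V) :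
    defect p (c • a) (c • b) = c ^ p * defect p a b := by
  unfold defect
  rw [← smul_add, smul_comm (1 / 2 : ℝ) c, norm_smul, norm_smul, norm_smul c, Real.norm_eq_abs,
    abs_of_nonneg hc, Real.mul_rpow hc (norm_nonneg _), Real.mul_rpow hc (norm_nonneg _),
    Real.mul_rpow hc (norm_nonneg _)]
  ring

/-- Quantitative strict convexity, from compactness of the unit sphere. -/
theorem uniform_convexity [FiniteDimensional ℝ V] {p : ℝ} (hp : 1 < p) {ε : ℝ} (hε : 0 < ε) :
    ∃ K : ℝ, 0 < K ∧ ∀ a b : V, ‖a - b‖ ^ p ≤ ε * (‖a‖ ^ p + ‖b‖ ^ p) + K * defect p a b := by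
  have hp0 : 0 < p := by linarith
  have hcn : Continuous (fun z : V × V => ‖z.1‖ ^ p + ‖z.2‖ ^ p) :=
    ((continuous_fst.norm).rpow_const (fun _ => Or.inr hp0.le)).add
      ((continuous_snd.norm).rpow_const (fun _ => Or.inr hp0.le))
  have hcd : Continuous (fun z : V × V => ‖z.1 - z.2‖ ^ p) :=
    ((continuous_fst.sub continuous_snd).norm).rpow_const (fun _ => Or.inr hp0.le)
  set S : Set (V × V) := {z | ‖z.1‖ ^ p + ‖z.2‖ ^ p = 1 ∧ ε ≤ ‖z.1 - z.2‖ ^ p} with hS
  have hSclosed : IsClosed S :=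
    (isClosed_eq hcn continuous_const).inter (isClosed_le continuous_const hcd)
  have hSbdd : Bornology.IsBounded S := by
    rw [Metric.isBounded_iff_subset_closedBall 0]
    refine ⟨1, ?_⟩
    intro z hz
    have h1 : ‖z.1‖ ^ p ≤ 1 := by
      have := Real.rpow_nonneg (norm_nonneg z.2) p
      linarith [hz.1]
    have h2 : ‖z.2‖ ^ p ≤ 1 := by
      have := Real.rpow_nonneg (norm_nonneg z.1) p
      linarith [hz.1]
    rw [mem_closedBall_zero_iff, Prod.norm_def, max_le_iff]
    constructor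
    · by_contra hcon
      push Not at hcon
      have := Real.one_lt_rpow hcon hp0
      linarith
    · by_contra hcon
      push Not at hcon
      have := Real.one_lt_rpow hcon hp0
      linarith
  have hScomp : IsCompact S := Metric.isCompact_of_isClosed_isBounded hSclosed hSbdd
  -- lower bound of the defect on S
  obtain ⟨m, hm, hmS⟩ : ∃ m : ℝ, 0 < m ∧ ∀ z ∈ S, m ≤ defect p z.1 z.2 := by
    rcases S.eq_empty_or_nonempty with h | h
    · exact ⟨1, one_pos, by rw [h]; simp⟩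
    · obtain ⟨z, hz, hzmin⟩ := hScomp.exists_isMinOn h (continuous_defect hp).continuousOn
      refine ⟨defect p z.1 z.2, defect_pos hp ?_, fun w hw => hzmin hw⟩
      intro heq
      have h1 := hz.2
      rw [heq, sub_self, norm_zero, Real.zero_rpow hp0.ne'] at h1
      linarith
  refine ⟨2 ^ p / m, by positivity, ?_⟩
  -- normalised version
  have hnorm : ∀ a b : V, ‖a‖ ^ p + ‖b‖ ^ p = 1 →
      ‖a - b‖ ^ p ≤ ε + 2 ^ p / m * defect p a b := by
    intro a b hab
    have hd := defect_nonneg hp a b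
    by_cases h : ε ≤ ‖a - b‖ ^ p
    · have h1 := hmS (a, b) ⟨hab, h⟩
      have h2 : ‖a - b‖ ^ p ≤ 2 ^ p := by
        apply Real.rpow_le_rpow (norm_nonneg _) _ hp0.le
        have ha : ‖a‖ ≤ 1 := by
          by_contra hcon
          push Not at hcon
          have := Real.one_lt_rpow hcon hp0
          have := Real.rpow_nonneg (norm_nonneg b) p
          linarith
        have hb : ‖b‖ ≤ 1 := by
          by_contra hcon
          push Not at hcon
          have := Real.one_lt_rpow hcon hp0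
          have := Real.rpow_nonneg (norm_nonneg a) p
          linarith
        linarith [norm_sub_le a b]
      have h3 : 2 ^ p ≤ 2 ^ p / m * defect p a b := by
        rw [div_mul_eq_mul_div, le_div_iff₀ hm]
        exact mul_le_mul_of_nonneg_left h1 (by positivity)
      linarith
    · push Not at h
      have : 0 ≤ 2 ^ p / m * defect p a b := by positivity
      linarith
  intro a b
  set A := ‖a‖ ^ p + ‖b‖ ^ p with hA
  have hA0 : 0 ≤ A := by positivity
  rcases hA0.eq_or_lt with h | h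
  · -- both zero
    have ha : ‖a‖ ^ p = 0 := by
      have h1 := Real.rpow_nonneg (norm_nonneg a) p
      have h2 := Real.rpow_nonneg (norm_nonneg b) p
      linarith
    have hb : ‖b‖ ^ p = 0 := by
      have h1 := Real.rpow_nonneg (norm_nonneg a) p
      have h2 := Real.rpow_nonneg (norm_nonneg b) p
      linarith
    have ha' : a = 0 := by
      rw [Real.rpow_eq_zero (norm_nonneg a) hp0.ne'] at ha
      exact norm_eq_zero.mp ha
    have hb' : b = 0 := by
      rw [Real.rpow_eq_zero (norm_nonneg b) hp0.ne'] at hb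
      exact norm_eq_zero.mp hb
    have hd := defect_nonneg hp a b
    rw [← h, ha', hb', sub_self, norm_zero, Real.zero_rpow hp0.ne', mul_zero, zero_add]
    rw [ha', hb'] at hd
    positivity
  · set c := A ^ (-(1 / p)) with hc
    have hcpos : 0 < c := Real.rpow_pos_of_pos h _
    have hcp : c ^ p = A⁻¹ := by
      rw [hc, ← Real.rpow_mul hA0, ← Real.rpow_neg_one]
      congr 1
      field_simp
    have h1 : ‖c • a‖ ^ p + ‖c • b‖ ^ p = 1 := by
      rw [norm_smul, norm_smul, Real.norm_eq_abs, abs_of_pos hcpos,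
        Real.mul_rpow hcpos.le (norm_nonneg _), Real.mul_rpow hcpos.le (norm_nonneg _), ← mul_add,
        hcp, ← hA]
      exact inv_mul_cancel₀ h.ne'
    have h2 := hnorm _ _ h1
    rw [← smul_sub, norm_smul, Real.norm_eq_abs, abs_of_pos hcpos,
      Real.mul_rpow hcpos.le (norm_nonneg _), defect_smul c hcpos.le, hcp] at h2
    have h3 : A * (A⁻¹ * ‖a - b‖ ^ p) ≤ A * (ε + 2 ^ p / m * (A⁻¹ * defect p a b)) :=
      mul_le_mul_of_nonneg_left h2 hA0
    have h4 : A * (A⁻¹ * ‖a - b‖ ^ p) = ‖a - b‖ ^ p := by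
      rw [← mul_assoc, mul_inv_cancel₀ h.ne', one_mul]
    have h5 : A * (ε + 2 ^ p / m * (A⁻¹ * defect p a b)) = ε * A + 2 ^ p / m * defect p a b := by
      field_simp
    rw [h4, h5] at h3
    exact h3

/-- The vector field `‖a‖^{p-2} a`. -/
noncomputable def pflux (p : ℝ) (a : V) : V := ‖a‖ ^ (p - 2) • a

theorem norm_pflux {p : ℝ} (hp : 1 < p) (a : V) : ‖pflux p a‖ = ‖a‖ ^ (p - 1) := by
  unfold pflux
  rw [norm_smul, Real.norm_eq_abs, abs_of_nonneg (Real.rpow_nonneg (norm_nonneg _) _)]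
  by_cases ha : a = 0
  · rw [ha, norm_zero, mul_zero, Real.zero_rpow (by linarith)]
  · have h1 : 0 < ‖a‖ := norm_pos_iff.mpr ha
    have : p - 1 = (p - 2) + 1 := by ring
    rw [this, Real.rpow_add h1, Real.rpow_one]

theorem inner_pflux {p : ℝ} (hp : 1 < p) (a : V) : inner ℝ (pflux p a) a = ‖a‖ ^ p := by
  unfold pflux
  rw [real_inner_smul_left, real_inner_self_eq_norm_sq]
  by_cases ha : a = 0
  · rw [ha, norm_zero, Real.zero_rpow (by linarith : p ≠ 0)]
    simp
  · have h1 : 0 < ‖a‖ := norm_pos_iff.mpr ha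
    have : p = (p - 2) + 2 := by ring
    conv_rhs => rw [this, Real.rpow_add h1]
    norm_num

/-- Strict monotonicity of `a ↦ ‖a‖^{p-2} a`. -/
theorem pflux_mono {p : ℝ} (hp : 1 < p) (a b : V) :
    0 ≤ inner ℝ (pflux p a - pflux p b) (a - b) := by
  have hab := real_inner_le_norm (pflux p a) b
  have hba := real_inner_le_norm (pflux p b) a
  rw [norm_pflux hp] at hab hba
  rw [inner_sub_left, inner_sub_right, inner_sub_right, inner_pflux hp, inner_pflux hp]
  have e1 : ‖a‖ ^ p = ‖a‖ ^ (p - 1) * ‖a‖ := by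
    by_cases ha : ‖a‖ = 0
    · rw [ha, Real.zero_rpow (by linarith : p ≠ 0), mul_zero]
    · have h1 : 0 < ‖a‖ := lt_of_le_of_ne (norm_nonneg _) (Ne.symm ha)
      conv_lhs => rw [show p = (p - 1) + 1 by ring, Real.rpow_add h1, Real.rpow_one]
  have e2 : ‖b‖ ^ p = ‖b‖ ^ (p - 1) * ‖b‖ := by
    by_cases ha : ‖b‖ = 0
    · rw [ha, Real.zero_rpow (by linarith : p ≠ 0), mul_zero]
    · have h1 : 0 < ‖b‖ := lt_of_le_of_ne (norm_nonneg _) (Ne.symm ha)
      conv_lhs => rw [show p = (p - 1) + 1 by ring, Real.rpow_add h1, Real.rpow_one]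
  have hm : 0 ≤ (‖a‖ ^ (p - 1) - ‖b‖ ^ (p - 1)) * (‖a‖ - ‖b‖) := by
    rcases le_total ‖a‖ ‖b‖ with h | h
    · have := Real.rpow_le_rpow (norm_nonneg _) h (by linarith : 0 ≤ p - 1)
      exact mul_nonneg_of_nonpos_of_nonpos (by linarith) (by linarith)
    · have := Real.rpow_le_rpow (norm_nonneg _) h (by linarith : 0 ≤ p - 1)
      exact mul_nonneg (by linarith) (by linarith)
  rw [e1, e2]
  nlinarith

theorem pflux_strict {p : ℝ} (hp : 1 < p) {a b : V}
    (h : inner ℝ (pflux p a - pflux p b) (a - b) = 0) : a = b := by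
  have hab := real_inner_le_norm (pflux p a) b
  have hba := real_inner_le_norm (pflux p b) a
  rw [norm_pflux hp] at hab hba
  rw [inner_sub_left, inner_sub_right, inner_sub_right, inner_pflux hp, inner_pflux hp] at h
  have e1 : ‖a‖ ^ p = ‖a‖ ^ (p - 1) * ‖a‖ := by
    by_cases ha : ‖a‖ = 0
    · rw [ha, Real.zero_rpow (by linarith : p ≠ 0), mul_zero]
    · have h1 : 0 < ‖a‖ := lt_of_le_of_ne (norm_nonneg _) (Ne.symm ha)
      conv_lhs => rw [show p = (p - 1) + 1 by ring, Real.rpow_add h1, Real.rpow_one]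
  have e2 : ‖b‖ ^ p = ‖b‖ ^ (p - 1) * ‖b‖ := by
    by_cases ha : ‖b‖ = 0
    · rw [ha, Real.zero_rpow (by linarith : p ≠ 0), mul_zero]
    · have h1 : 0 < ‖b‖ := lt_of_le_of_ne (norm_nonneg _) (Ne.symm ha)
      conv_lhs => rw [show p = (p - 1) + 1 by ring, Real.rpow_add h1, Real.rpow_one]
  have hnorm : ‖a‖ = ‖b‖ := by
    by_contra hne
    have hm : 0 < (‖a‖ ^ (p - 1) - ‖b‖ ^ (p - 1)) * (‖a‖ - ‖b‖) := by
      rcases lt_or_gt_of_ne hne with h | h
      · have := Real.rpow_lt_rpow (norm_nonneg _) h (by linarith : 0 < p - 1)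
        exact mul_pos_of_neg_of_neg (by linarith) (by linarith)
      · have := Real.rpow_lt_rpow (norm_nonneg _) h (by linarith : 0 < p - 1)
        exact mul_pos (by linarith) (by linarith)
    rw [e1, e2] at h
    nlinarith
  by_cases ha : a = 0
  · rw [ha, norm_zero] at hnorm
    rw [ha, (norm_eq_zero.mp hnorm.symm)]
  · have hapos : 0 < ‖a‖ := norm_pos_iff.mpr ha
    -- inner a b = ‖a‖ ^ 2
    have h1 : inner ℝ (pflux p a) b = ‖a‖ ^ (p - 1) * ‖a‖ := by
      rw [e1, e2] at h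
      rw [← hnorm] at h hab hba
      linarith
    unfold pflux at h1
    rw [real_inner_smul_left] at h1
    have h2 : ‖a‖ ^ (p - 1) = ‖a‖ ^ (p - 2) * ‖a‖ := by
      conv_lhs => rw [show p - 1 = (p - 2) + 1 by ring, Real.rpow_add hapos, Real.rpow_one]
    rw [h2, mul_assoc] at h1
    have h3 : (inner ℝ a b : ℝ) = ‖a‖ * ‖a‖ :=
      mul_left_cancel₀ (Real.rpow_pos_of_pos hapos _).ne' h1
    have h4 : ‖a - b‖ ^ 2 = 0 := by
      rw [norm_sub_sq_real, h3, ← hnorm]
      ring
    have h5 : ‖a - b‖ = 0 := by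
      exact pow_eq_zero_iff (two_ne_zero) |>.mp h4
    exact sub_eq_zero.mp (norm_eq_zero.mp h5)

end Pool.Agent.Lib_MP_83d99e_an
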